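import Pool.Agent.U693.X49.Field

/-!
# The 2-part of the conjecture over number fields for the twists of `X_0(49)` by products of primes from
# ARBITRARY sets of primes

`K` is a subfield of degree `2 ^ n`, `n ≥ 1`, of `ℚ(ζ_r)`, where `r` is any prime `≡ 1 mod 4` inert in
`ℚ(√-7)` (`K` is totally real or totally complex). `E_D` is the quadratic twist of `X_0(49)` by a
squarefree product `D` of primes `≡ 1 mod 4`, `r ∤ D`. `UnitCase K D` says: `E_D(K)` is finite,
`Ш(E_D/K)[2^∞] = 0`, `L(E_D/K, s)` is entire with `L(E_D/K, 1) ≠ 0`, and the order of `Ш` predicted by the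
formula of Birch and Swinnerton-Dyer, `√|Disc K| #E_D(K)_tors² L(E_D/K, 1) / (Ω ∏ c_v)`, is a unit at all the
primes above two (so the 2-part of the formula holds).

Let `E_D(K)` be finite and `Ш(E_D/K)[2] = 0` (this holds for `D = 1`). Call a prime `p ≡ 1 mod 4`, `p ≠ r`,
admissible if `-7 D²` is not a fourth power modulo `p` and the Frobenius element of `p` in `Gal(K/ℚ)` is
trivial if `p` splits in `ℚ(√-7)`, and of order one or two if `p` is inert there.

* FINITE SETS: let `k` be even and `S` ANY finite set of admissible primes with at least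
  `N = 2 ^ (2 k + ω(D) + 1)` elements. The unit case holds for `D ∏ A` over `K` for at least
  `(|S| choose k) / (N choose k)` of the `k`-subsets `A` of `S`.
* INFINITE SETS: let `S` be ANY infinite set of primes `≡ 1 mod 4` different from `r`. There is an infinite
  `T ⊆ S` such that the unit case holds for `D ∏ A` over `K` for ALL finite subsets `A ⊆ T` with an even
  number of elements, if and only if infinitely many primes of `S` are admissible.
* ALL FIELDS AT THE SAME TIME: let `E_D(ℚ)` be finite and `Ш(E_D/ℚ)[2] = 0`, and let `S` be ANY infinite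
  set of primes `p ≡ 1 mod 4` such that `-7 D²` is not a fourth power modulo `p`. There is an infinite
  `T ⊆ S` such that for ALL finite `A ⊆ T` with an even number of elements and ALL fields `K` as above
  (all `r`, all `n`; `r ∤ D ∏ A`) the unit case holds for `D ∏ A` over `K` if and only if the Frobenius
  elements in `Gal(K/ℚ)` of the primes dividing `D ∏ A` are of order one (split) or at most two (inert).

The criterion for a single `D` and `K` is that of the starting file `MP_1a91b9_nt/FormulaModTwoAllTwists`;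
new are the theorems for arbitrary sets of primes (`Pool/Agent/U693/X49`; over `ℚ` and for the weak
conjecture see `MP_8b7eba_nt/ArbitraryPrimeSets`).
-/

set_option autoImplicit false

open scoped Classical
open NumberField NumberField.InfinitePlace IsDedekindDomain WeierstrassCurve MeasureTheory

namespace Pool.Agent.Results.MP_1a91b9_nt.ArbitraryPrimeSetsOverFields

open Pool.Agent.TH841.NF.D (Sha)
open Pool.Agent.Results.MP_1a91b9_nt.FormulaModTwoAllTwists (twist base MinimalAt anOrder)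

/-- the field `K`: a subfield of degree `2 ^ n`, `n ≥ 1`, of `ℚ(ζ_r)`, `r ≡ 1 mod 4` a prime which is inert
in `ℚ(√-7)` -/
structure IsField (r n : ℕ) (K : IntermediateField ℚ (CyclotomicField r ℚ)) : Prop where
  prime : r.Prime
  four : r % 4 = 1
  inert : ¬ IsSquare (-7 : ZMod r)
  pos : 1 ≤ n
  degree : Module.finrank ℚ K = 2 ^ n

/-- the class: squarefree products of primes `≡ 1 mod 4` -/
def Class (D : ℕ) : Prop := Squarefree D ∧ ∀ p ∈ D.primeFactors, p % 4 = 1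

/-- the Frobenius element of `p` in `Gal(K/ℚ)` has order one or two, and it is trivial if `p` splits in
`ℚ(√-7)` (`p` splits completely in `K` iff `p` is a `2 ^ n`-th power modulo `r`) -/
def Frobenius (r n p : ℕ) : Prop :=
  (∃ y : ZMod r, y ^ 2 ^ n = (p : ZMod r) ^ 2) ∧
    (IsSquare (-7 : ZMod p) → ∃ y : ZMod r, y ^ 2 ^ n = (p : ZMod r))

/-- `p ≡ 1 mod 4` is a prime such that `-7 D²` is not a fourth power modulo `p` -/
def NonFourth (D p : ℕ) : Prop :=
  p.Prime ∧ p % 4 = 1 ∧ ¬ ∃ y : ZMod p, y ^ 4 = -7 * (D : ZMod p) ^ 2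

/-- `E_D(K)` is finite and `Ш(E_D/K)` has no element of order two -/
def TrivialTwo (K : Type) [Field K] [NumberField K] (D : ℕ) : Prop :=
  Finite (base (twist D) K).toAffine.Point ∧ ∀ x : Sha (base (twist D) K), x + x = 0 → x = 0

/-- `E_D(K)` is finite, `Ш(E_D/K)[2^∞] = 0`, the equation of `E_D` is minimal at all finite places of `K`,
`L(E_D/K, s)` has the entire continuation `Λ`, `Λ 1 ≠ 0`, and the predicted order of `Ш` is a unit at all
the primes above two -/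
def UnitCase (K : Type) [Field K] [NumberField K] (D : ℕ) : Prop :=
  Finite (base (twist D) K).toAffine.Point ∧
    (∀ (m : ℕ) (x : Sha (base (twist D) K)), 2 ^ m • x = 0 → x = 0) ∧
    (∀ v : HeightOneSpectrum (𝓞 K), MinimalAt (base (twist D) K) v) ∧
    ∃ Λ : ℂ → ℂ, Differentiable ℂ Λ ∧ (∀ s : ℂ, 2 < s.re → Λ s = (base (twist D) K).LSeries s) ∧
      Λ 1 ≠ 0 ∧ ∃ m : ℤ, Odd m ∧ _root_.IsIntegral ℤ (m * anOrder K (twist D) (Λ 1)) ∧
        _root_.IsIntegral ℤ (m * (anOrder K (twist D) (Λ 1))⁻¹)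

section proof

open Pool.Agent.U693.X49 (Fld FrobAt Triv core unit_triv fin_main inf_main inf_iff)
open Pool.Agent.Results.MP_4a9ea6_nt.TwoPartTwistsX49 (Adm)
open Pool.Agent.R413.SQ (Gd)
open Pool.Agent.R413.SQ.BOX (nr_self nr_symm)
open Pool.Agent.Y698.SG (n4)
open Pool.Agent.Results.MP_8b7eba_nt.ArbitraryPrimeSets (mul_fac ndvd dl_iff sym_all fac_pr ad_of tt_iff)

variable {r n : ℕ} {K : IntermediateField ℚ (CyclotomicField r ℚ)}

theorem fld (h : IsField r n K) : Fld r n K := ⟨h.prime, h.four, h.inert, h.pos, h.degree⟩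

theorem crit (hF : IsField r n K) {D : ℕ} (hA : Class D) (hrD : ¬ r ∣ D) :
    (TrivialTwo K D ↔ (∀ p ∈ D.primeFactors, Frobenius r n p) ∧ Gd n4 D.primeFactors) ∧
      ((∀ p ∈ D.primeFactors, Frobenius r n p) ∧ Gd n4 D.primeFactors → UnitCase K D) :=
  core (fld hF) hA hrD

theorem ut {K : Type} [Field K] [NumberField K] {D : ℕ} (h : UnitCase K D) : TrivialTwo K D :=
  unit_triv h

theorem not_dvd (hr : r.Prime) {D : ℕ} (hrD : ¬ r ∣ D) {S : Finset ℕ}
    (hS : ∀ p ∈ S, p.Prime ∧ p ≠ r) : ¬ r ∣ D * ∏ p ∈ S, p := by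
  intro h
  rcases hr.dvd_mul.1 h with h | h
  · exact hrD h
  · obtain ⟨p, hp, h1⟩ := (hr.prime.dvd_finset_prod_iff _).1 h
    exact (hS p hp).2 ((Nat.prime_dvd_prime_iff_eq hr (hS p hp).1).1 h1).symm

theorem frob_mul {D : ℕ} (hD : Class D) (h : ∀ p ∈ D.primeFactors, Frobenius r n p) {S : Finset ℕ}
    (h4 : ∀ p ∈ S, p.Prime ∧ p % 4 = 1) (hd : ∀ p ∈ S, ¬ p ∣ D) (hS : ∀ p ∈ S, Frobenius r n p) :
    ∀ p ∈ (D * ∏ p ∈ S, p).primeFactors, Frobenius r n p := by
  rw [(mul_fac hD h4 hd).2]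
  intro p hp
  rcases Finset.mem_union.1 hp with h' | h'
  · exact h p h'
  · exact hS p h'

theorem unit_mul (hF : IsField r n K) {D : ℕ} (hD : Class D) (hrD : ¬ r ∣ D)
    (h : ∀ p ∈ D.primeFactors, Frobenius r n p) {S : Finset ℕ}
    (h4 : ∀ p ∈ S, p.Prime ∧ p % 4 = 1 ∧ p ≠ r) (hd : ∀ p ∈ S, ¬ p ∣ D)
    (hS : ∀ p ∈ S, Frobenius r n p) (hG : Gd n4 (D.primeFactors ∪ S)) :
    UnitCase K (D * ∏ p ∈ S, p) := by
  obtain ⟨h1, h2⟩ := mul_fac hD (fun p hp => ⟨(h4 p hp).1, (h4 p hp).2.1⟩) hd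
  refine (crit hF h1 (not_dvd hF.prime hrD fun p hp => ⟨(h4 p hp).1, (h4 p hp).2.2⟩)).2 ⟨?_, ?_⟩
  · exact frob_mul hD h (fun p hp => ⟨(h4 p hp).1, (h4 p hp).2.1⟩) hd hS
  · rw [h2]
    exact hG

theorem fin_part (hF : IsField r n K) {D : ℕ} (hD : Class D) (hrD : ¬ r ∣ D) (hT : TrivialTwo K D)
    {k : ℕ} (hk : Even k) (S : Finset ℕ) (hS : ∀ p ∈ S, NonFourth D p ∧ Frobenius r n p ∧ p ≠ r)
    (hc : 2 ^ (2 * k + D.primeFactors.card + 1) ≤ S.card) :
    S.card.choose k ≤ (2 ^ (2 * k + D.primeFactors.card + 1)).choose k *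
      ((S.powersetCard k).filter fun A => UnitCase K (D * ∏ p ∈ A, p)).card := by
  obtain ⟨hf, hG⟩ := (crit hF hD hrD).1.1 hT
  refine (fin_main nr_self hG hk S (fun q hq => ad_of hD (hS q hq).1)
    (fun p hp q hq => sym_all ⟨(hS p hp).1.1, (hS p hp).1.2.1⟩
      ⟨(hS q hq).1.1, (hS q hq).1.2.1⟩) hc).trans ?_
  refine Nat.mul_le_mul_left _ (Finset.card_le_card ?_)
  intro T hT'
  rw [Finset.mem_filter] at hT' ⊢
  have hs : ∀ p ∈ T, p ∈ S := fun p hp => (Finset.mem_powersetCard.1 hT'.1).1 hp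
  exact ⟨hT'.1, unit_mul hF hD hrD hf
    (fun p hp => ⟨(hS p (hs p hp)).1.1, (hS p (hs p hp)).1.2.1, (hS p (hs p hp)).2.2⟩)
    (fun p hp => ndvd (hS p (hs p hp)).1) (fun p hp => (hS p (hs p hp)).2.1) hT'.2⟩

theorem inf_part (hF : IsField r n K) {D : ℕ} (hD : Class D) (hrD : ¬ r ∣ D) (hT : TrivialTwo K D)
    (S : Set ℕ) (hS : ∀ p ∈ S, p.Prime ∧ p % 4 = 1 ∧ p ≠ r) :
    (∃ T ⊆ S, T.Infinite ∧ ∀ A : Finset ℕ, (A : Set ℕ) ⊆ T → Even A.card →
      UnitCase K (D * ∏ p ∈ A, p)) ↔ {p ∈ S | NonFourth D p ∧ Frobenius r n p}.Infinite := by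
  obtain ⟨hf, hG⟩ := (crit hF hD hrD).1.1 hT
  constructor
  · rintro ⟨T, hTS, hTi, h⟩
    have hTi' : (T \ (D.primeFactors : Set ℕ)).Infinite := hTi.sdiff (Finset.finite_toSet _)
    have hnd : ∀ p ∈ T \ (D.primeFactors : Set ℕ), ¬ p ∣ D := by
      intro p hp hd
      exact hp.2 (Finset.mem_coe.2 (Nat.mem_primeFactors.2 ⟨(hS p (hTS hp.1)).1, hd, hD.1.ne_zero⟩))
    have key : ∀ A : Finset ℕ, (A : Set ℕ) ⊆ T \ (D.primeFactors : Set ℕ) → Even A.card →
        (∀ p ∈ A, Frobenius r n p) ∧ Gd n4 (D.primeFactors ∪ A) := by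
      intro A hA hAe
      have hA1 : ∀ p ∈ A, p ∈ T \ (D.primeFactors : Set ℕ) := fun p hp => hA (Finset.mem_coe.2 hp)
      have hA4 : ∀ p ∈ A, p.Prime ∧ p % 4 = 1 := fun p hp =>
        ⟨(hS p (hTS (hA1 p hp).1)).1, (hS p (hTS (hA1 p hp).1)).2.1⟩
      obtain ⟨g1, g2⟩ := mul_fac hD hA4 fun p hp => hnd p (hA1 p hp)
      have h1 := (crit hF g1 (not_dvd hF.prime hrD fun p hp =>
        ⟨(hA4 p hp).1, (hS p (hTS (hA1 p hp).1)).2.2⟩)).1.1 (ut (h A (fun p hp => (hA hp).1) hAe))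
      rw [g2] at h1
      exact ⟨fun p hp => h1.1 p (Finset.mem_union_right _ hp), h1.2⟩
    have h1 := (inf_iff nr_self hG (T \ (D.primeFactors : Set ℕ))
      (fun p hp q hq => sym_all ⟨(hS p (hTS hp.1)).1, (hS p (hTS hp.1)).2.1⟩
        ⟨(hS q (hTS hq.1)).1, (hS q (hTS hq.1)).2.1⟩)
      (fun q hq i hi => sym_all ⟨(hS q (hTS hq.1)).1, (hS q (hTS hq.1)).2.1⟩ (fac_pr hD hi))).1
      ⟨_, subset_rfl, hTi', fun A hA hAe => (key A hA hAe).2⟩
    refine h1.mono ?_
    rintro q ⟨hq, hdl⟩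
    have hqS := hS q (hTS hq.1)
    refine ⟨hTS hq.1, ⟨hqS.1, hqS.2.1, (dl_iff hD.1 hqS.1 hqS.2.1 (hnd q hq)).1 hdl⟩, ?_⟩
    obtain ⟨q', hq', hne⟩ := (hTi'.sdiff (Set.finite_singleton q)).nonempty
    have hne' : q ≠ q' := fun e => hne (Set.mem_singleton_iff.2 e.symm)
    refine (key {q, q'} ?_ (by rw [Finset.card_pair hne']; exact even_two)).1 q
      (Finset.mem_insert_self _ _)
    intro z hz
    rcases Finset.mem_insert.1 (Finset.mem_coe.1 hz) with h' | h'
    · rw [h']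
      exact hq
    · rw [Finset.mem_singleton.1 h']
      exact hq'
  · intro hI
    obtain ⟨T, hT1, hTi, h⟩ := inf_main nr_self hG {p ∈ S | NonFourth D p ∧ Frobenius r n p} hI
      (fun q hq => ad_of hD hq.2.1)
      (fun p hp q hq => sym_all ⟨hp.2.1.1, hp.2.1.2.1⟩ ⟨hq.2.1.1, hq.2.1.2.1⟩)
    refine ⟨T, fun p hp => (hT1 hp).1, hTi, fun A hA hAe => ?_⟩
    have hA1 : ∀ p ∈ A, p ∈ {p ∈ S | NonFourth D p ∧ Frobenius r n p} := fun p hp =>
      hT1 (hA (Finset.mem_coe.2 hp))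
    exact unit_mul hF hD hrD hf (fun p hp => hS p (hA1 p hp).1) (fun p hp => ndvd (hA1 p hp).2.1)
      (fun p hp => (hA1 p hp).2.2) (h A hA hAe)

theorem all_part {D : ℕ} (hD : Class D)
    (hT : Pool.Agent.Results.MP_8b7eba_nt.ArbitraryPrimeSets.TrivialTwo D) (S : Set ℕ)
    (hSi : S.Infinite) (hS : ∀ p ∈ S, NonFourth D p) :
    ∃ T ⊆ S, T.Infinite ∧ ∀ A : Finset ℕ, (A : Set ℕ) ⊆ T → Even A.card →
      ∀ (r n : ℕ) (K : IntermediateField ℚ (CyclotomicField r ℚ)), IsField r n K →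
        ¬ r ∣ D * ∏ p ∈ A, p →
        (UnitCase K (D * ∏ p ∈ A, p) ↔
          ∀ p ∈ (D * ∏ p ∈ A, p).primeFactors, Frobenius r n p) := by
  obtain ⟨T, hT1, hTi, h⟩ := inf_main nr_self ((tt_iff hD).1 hT) S hSi
    (fun q hq => ad_of hD (hS q hq))
    (fun p hp q hq => sym_all ⟨(hS p hp).1, (hS p hp).2.1⟩ ⟨(hS q hq).1, (hS q hq).2.1⟩)
  refine ⟨T, hT1, hTi, fun A hA hAe r n K hF hr => ?_⟩
  have hA1 : ∀ p ∈ A, NonFourth D p := fun p hp => hS p (hT1 (hA (Finset.mem_coe.2 hp)))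
  obtain ⟨g1, g2⟩ := mul_fac hD (fun p hp => ⟨(hA1 p hp).1, (hA1 p hp).2.1⟩)
    fun p hp => ndvd (hA1 p hp)
  have h1 := crit hF g1 hr
  have hG : Gd n4 (D * ∏ p ∈ A, p).primeFactors := by
    rw [g2]
    exact h A hA hAe
  exact ⟨fun h' => (h1.1.1 (ut h')).1, fun h' => h1.2 ⟨h', hG⟩⟩

theorem one_part (hF : IsField r n K) : TrivialTwo K 1 := by
  have h1 : Class 1 := ⟨squarefree_one, fun p hp => by simp at hp⟩
  refine (crit hF h1 fun h => hF.prime.one_lt.ne' (Nat.dvd_one.1 h)).1.2 ⟨fun p hp => ?_, ?_⟩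
  · simp at hp
  · intro x _ p hp
    simp at hp

end proof

theorem result :
    -- a fixed field `K`
    (∀ (r n : ℕ) (K : IntermediateField ℚ (CyclotomicField r ℚ)), IsField r n K →
      TrivialTwo K 1 ∧
      ∀ D : ℕ, Class D → ¬ r ∣ D → TrivialTwo K D →
        -- finite sets of primes
        (∀ (k : ℕ) (S : Finset ℕ), Even k →
          (∀ p ∈ S, NonFourth D p ∧ Frobenius r n p ∧ p ≠ r) →
          2 ^ (2 * k + D.primeFactors.card + 1) ≤ S.card →
          S.card.choose k ≤ (2 ^ (2 * k + D.primeFactors.card + 1)).choose k *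
            ((S.powersetCard k).filter fun A => UnitCase K (D * ∏ p ∈ A, p)).card) ∧
        -- infinite sets of primes
        (∀ S : Set ℕ, (∀ p ∈ S, p.Prime ∧ p % 4 = 1 ∧ p ≠ r) →
          ((∃ T ⊆ S, T.Infinite ∧ ∀ A : Finset ℕ, (A : Set ℕ) ⊆ T → Even A.card →
            UnitCase K (D * ∏ p ∈ A, p)) ↔
            {p ∈ S | NonFourth D p ∧ Frobenius r n p}.Infinite))) ∧
    -- all the fields at the same time
    (∀ D : ℕ, Class D → Pool.Agent.Results.MP_8b7eba_nt.ArbitraryPrimeSets.TrivialTwo D →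
      ∀ S : Set ℕ, S.Infinite → (∀ p ∈ S, NonFourth D p) →
        ∃ T ⊆ S, T.Infinite ∧ ∀ A : Finset ℕ, (A : Set ℕ) ⊆ T → Even A.card →
          ∀ (r n : ℕ) (K : IntermediateField ℚ (CyclotomicField r ℚ)), IsField r n K →
            ¬ r ∣ D * ∏ p ∈ A, p →
            (UnitCase K (D * ∏ p ∈ A, p) ↔
              ∀ p ∈ (D * ∏ p ∈ A, p).primeFactors, Frobenius r n p)) :=
  ⟨fun _ _ _ hF => ⟨one_part hF, fun _ hD hrD hT =>
    ⟨fun _ S hk hS hc => fin_part hF hD hrD hT hk S hS hc,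
      fun S hS => inf_part hF hD hrD hT S hS⟩⟩,
    fun _ hD hT S hSi hS => all_part hD hT S hSi hS⟩

end Pool.Agent.Results.MP_1a91b9_nt.ArbitraryPrimeSetsOverFields
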