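import Pool.Agent.U81.BX.Eul
import Pool.Agent.U81.AT.Top

/-!
# The Birch and Swinnerton-Dyer conjecture for elliptic curves over imaginary quadratic fields, over
# all their abelian extensions of 2-power degree with good ramification

`K` is an imaginary quadratic field of class number one, `E : y² = x³ + a x + b` is an elliptic curve over `K` (in
general not defined over `ℚ` or a base change), and `f` is the Bianchi newform of `E`.  We suppose that `E(K)[2] = 0`,
that the `2`-Selmer group of `E/K` is trivial, and that the central value of `f` is odd: the value `Φ(0)` of the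
primitive `Φ` of the harmonic differential of `f` at the cusp `0` is not in `2 w Λ`, where `Λ ≅ ℤ` is the group of the
values of `Φ` at the cusps `x/m`, `m` prime to the level, and `w = #{u ∈ 𝓞 : u⁴ = 1}`.

A place `v ∤ 2(4a³ + 27b²)` of `K` is admissible if `x³ + a x + b` has no root modulo `v`.  Let `F/K` be the class field
of any finite group `𝒢` of characters of `K` of `2`-power order whose conductors are products of different admissible
places, in which the places `v ∣ 2(4a³ + 27b²)` of `K` split completely.  There is no bound for the degree or for the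
exponent of `Gal(F/K) = 𝒢^`; in general `F` is not a Galois extension of `ℚ`.

Theorem.  (1) `L(E/F, s)` is continued to an entire function, its order of vanishing at `s = 1` is equal to the rank of
`E(F)`, and both are `0`.  (2) `E(F)` is finite of odd order and the `2`-primary part of `Ш(E/F)` is zero (and
`H¹_f(F, V_2 E) = 0`).  (3) The `2`-part of the formula of Birch and Swinnerton-Dyer holds for `E/F` relative to `E/K`:
`L(E/F, 1) √(∏ N(f_χ)) / L(E/K, 1) ^ [F:K]` is a unit at all the primes above `2`; here `f_χ` are the conductors of the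
`χ ∈ 𝒢`, `∏ N(f_χ) = |disc F| / |disc K| ^ [F:K]`, `L(E/K, 1) = (2π/√|disc K|)² Φ(0) / #𝓞ˣ ≠ 0`.
(According to the conjecture this quotient is
`(#Ш(E/F) / #E(F)²) / (#Ш(E/K) / #E(K)²) ^ [F:K]`, as the periods and the Tamagawa numbers of `E/F` are the `[F:K]`-th
powers of those of `E/K`: the places of bad reduction split completely.  By (2) it should be a unit at `2`.)
(4) For every such `E` the class of the fields `F` is large: every finite abelian group `A ≠ 1` of `2`-power order is
`Gal(F/K)` for infinitely many fields `F` of the class.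

The proof.  The `L`-function of `E/F` is the product of the functions `L(f ⊗ χ, s)`.  The central values are, up to
Gauss sums, the finite sums `∑ χ(x) Φ(x/m)`.  They are congruent, modulo the primes above `2`, to the sums without
`χ`, which are `∏ (c(v) - 2)` times `Φ(0)`, and `c(v)` is odd for admissible `v`; the group of the `u ∈ 𝓞` with `u⁴ = 1` acts
on the sums, which gives the factor `w`.  On the algebraic side, a nonzero element of the `2`-Selmer group of `E/F`
which is fixed by the `2`-group `Gal(F/K)` comes from an element of the cubic field of `E` over `K`; at the admissible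
places `E` has no points of order two over the residue field and `F/K` is tamely ramified, so that the descended
class is in the `2`-Selmer group of `E/K`, which is zero.  Both parts are from the starting library of helper55
(`Pool.Agent.K4H55.CX.ab_unit`, `Pool.Agent.K4H55.CX.fin_up`), which is used in the starting result
`MP_60ff09_nt.DihedralTwoPower` for base changes of curves over `ℚ`, and was announced there as a result for this
problem which is not among the starting files.  New here (`Pool.Agent.U81.BX`): the numbers of points over the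
residue fields of `F` and the Euler product over all the finite places of `F`.  For (4) (`Pool.Agent.U81.AT`, as in
`MP_9ab903_nt.AbelianTwoTowers`) we take subfields of composites of the fields `K(ζ_q)`, where `q` are primes which split
in `K` such that the two places above `q` are admissible, `q ≡ 1` modulo `2^k`, and the norms of the places of bad
reduction are `2^k`-th powers modulo `q`; these `q` have positive lower density by Chebotarev's theorem for the field
generated by the points of order two, the `2^k`-th roots of unity and of these norms; the characters and the decomposition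
law of the subfields are computed with the cyclotomic characters.

(Numerically the central value is odd, for instance, for `K = ℚ(√-7)` and the curve `y² + y = x³ + x² - 9 x - 15` of
conductor `19`, see `MP_60ff09_nt.DihedralTwoPower`.)
-/

set_option autoImplicit false

open NumberField IsDedekindDomain Matrix WeierstrassCurve Filter Topology
open scoped TensorProduct

namespace Pool.Agent.Results.MP_1a91b9_nt.BianchiTwoExtensions

/-- `K` is an imaginary quadratic field, `σ` is one of its two embeddings in `ℂ`, and `δ` generates the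
different of `K`: an `x ∈ K` is in `𝓞` if and only if `Tr(x y / δ) ∈ ℤ` for all `y ∈ 𝓞`. -/
structure IsFieldData (K : Type) [Field K] [NumberField K] (σ : K →+* ℂ) (δ : K) : Prop where
  quadratic : Module.finrank ℚ K = 2
  imaginary : ∃ x, (starRingEnd ℂ) (σ x) ≠ σ x
  different : ∀ x : K, (∃ a : 𝓞 K, (a : K) = x) ↔
    ∀ y : 𝓞 K, ∃ m : ℤ, Algebra.trace ℚ K (x * y / δ) = m

/-- `h(y) = ∫_0^∞ exp(-1/v - y v) dv = 2 y^(-1/2) K₁(2 √y)`, with the Bessel function `K₁`. -/
noncomputable def bessel (y : ℝ) : ℝ := ∫ v in Set.Ioi (0 : ℝ), Real.exp (-(1 / v) - y * v)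

/-- The additive character `e(z) = exp(2πi (z/δ + conj (z/δ)))` of `ℂ`, trivial on `𝓞`. -/
noncomputable def addChar (δ z : ℂ) : ℂ :=
  Complex.exp (2 * Real.pi * Complex.I * (z / δ + (starRingEnd ℂ) (z / δ)))

/-- The denominator `|c z + d|² + |c|² t²` of the action of the matrix `(a, b; c, d)` on the hyperbolic
space `{(z, t) : z ∈ ℂ, t > 0}`. -/
noncomputable def den (c d z : ℂ) (t : ℝ) : ℝ := ‖c * z + d‖ ^ 2 + ‖c‖ ^ 2 * t ^ 2

/-- The first coordinate `((a z + b) conj (c z + d) + a conj(c) t²) / (|c z + d|² + |c|² t²)` of the image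
of `(z, t)` under the matrix `(a, b; c, d)`. -/
noncomputable def actZ (a b c d z : ℂ) (t : ℝ) : ℂ :=
  ((a * z + b) * (starRingEnd ℂ) (c * z + d) + a * (starRingEnd ℂ) c * (t : ℂ) ^ 2) /
    (den c d z t : ℂ)

/-- The second coordinate, for a matrix of determinant one; in general it is `|ad - bc|` times this. -/
noncomputable def actT (c d z : ℂ) (t : ℝ) : ℝ := t / den c d z t

section field
variable {K : Type} [Field K] [NumberField K]

/-- The function `Φ(z, t) = ∑_{x ∈ 𝓞} c((x)) t² h(N(x) (2πt/|δ|)²) e(x z)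
  = (|δ|/π) ∑_{x ≠ 0} (c((x))/|x|) t K₁(4π|x|t/|δ|) e(x z)` on the hyperbolic space, with the coefficients `c`.
Up to a constant factor it is the primitive, zero at the cusp `∞`, of the harmonic differential of the
form of weight two with the Fourier coefficients `c`: its derivative by `t` is
`-4 ∑_{x ≠ 0} c((x)) t K₀(4π|x|t/|δ|) e(x z)`. -/
noncomputable def primitive (σ : K →+* ℂ) (δ : K) (c : Ideal (𝓞 K) → ℂ) (z : ℂ) (t : ℝ) : ℂ :=
  ∑' x : 𝓞 K, c (Ideal.span {x}) * ((t ^ 2 * bessel (Ideal.absNorm (Ideal.span {x}) *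
    (2 * Real.pi * t / ‖σ δ‖) ^ 2) : ℝ) : ℂ) * addChar (σ δ) (σ x * z)

/-- The group `Λ` generated by the values of the primitive `Φ` at the cusps `x/m`, `m ≠ 0` prime to the level (that is,
by the limits of `Φ(x/m, t)` for `t → 0`). -/
def Lam (σ : K →+* ℂ) (δ : K) (n : 𝓞 K) (c : Ideal (𝓞 K) → ℂ) : AddSubgroup ℂ :=
  AddSubgroup.closure {z | ∃ x m : 𝓞 K, m ≠ 0 ∧ IsCoprime m n ∧
    Tendsto (fun t => primitive σ δ c (σ x / σ m) t) (𝓝[>] 0) (𝓝 z)}

/-- The numbers `c(I)` are the Hecke eigenvalues of a Bianchi newform `f` of weight two, level `(n)` and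
trivial character over `K`, with rational eigenvalues: they satisfy `c(𝓞) = 1`, the (trivial) bound `c(I) = O(N(I))`
and the Hecke relations `c(v I) = c(v) c(I)` for `v ∤ I`, `c(v² I) = c(v) c(v I) - N(v) c(I)` for the primes `v ∤ n`, and
`c(v I) = c(v) c(I)` for `v ∣ n`; the differential `dΦ` of the function `Φ` with the coefficients `c` is
invariant under `Γ₀(n)`, that is, `Φ(γ P) - Φ(P)` is a constant for every `γ ∈ Γ₀(n)`; `dΦ` is an
eigenform, with the eigenvalue `±1`, of the Fricke involution `W = (0, -1; n, 0)`; and the group `Λ` of the values of `Φ` at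
cusps is cyclic (this is so for rational eigenvalues, by multiplicity one and the theorem of Manin, Drinfeld and
Kurčanov: the quotient of `H₁(Γ₀(n), cusps; ℤ)` which belongs to `f` has rank one). -/
structure IsNewform (σ : K →+* ℂ) (δ : K) (n : 𝓞 K) (c : Ideal (𝓞 K) → ℂ) : Prop where
  level : n ≠ 0
  zero : c ⊥ = 0
  one : c ⊤ = 1
  bound : ∃ C : ℝ, ∀ I, ‖c I‖ ≤ C * Ideal.absNorm I
  good : ∀ v : HeightOneSpectrum (𝓞 K), n ∉ v.asIdeal → ∀ I,
    (¬ v.asIdeal ∣ I → c (v.asIdeal * I) = c v.asIdeal * c I) ∧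
    c (v.asIdeal * (v.asIdeal * I)) = c v.asIdeal * c (v.asIdeal * I) -
      Ideal.absNorm v.asIdeal * c I
  bad : ∀ v : HeightOneSpectrum (𝓞 K), n ∈ v.asIdeal → ∀ I,
    c (v.asIdeal * I) = c v.asIdeal * c I
  invariant : ∃ κ : SpecialLinearGroup (Fin 2) (𝓞 K) → ℂ,
    ∀ γ : SpecialLinearGroup (Fin 2) (𝓞 K), n ∣ γ.1 1 0 → ∀ (z : ℂ) (t : ℝ), 0 < t →
      primitive σ δ c (actZ (σ (γ.1 0 0)) (σ (γ.1 0 1)) (σ (γ.1 1 0)) (σ (γ.1 1 1)) z t)
        (actT (σ (γ.1 1 0)) (σ (γ.1 1 1)) z t) = primitive σ δ c z t + κ γ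
  fricke : ∃ w κ : ℂ, w * w = 1 ∧ ∀ (z : ℂ) (t : ℝ), 0 < t →
    primitive σ δ c (actZ 0 (-1) (σ n) 0 z t) (‖σ n‖ * actT (σ n) 0 z t) =
      -w * primitive σ δ c z t + κ
  cyclic : ∃ ω ∈ Lam σ δ n c, ∀ l ∈ Lam σ δ n c, ∃ j : ℤ, l = j * ω

/-- The number `w` of the `u ∈ 𝓞` with `u⁴ = 1`: it is `4` for `K = ℚ(i)` and `2` otherwise. -/
noncomputable def fourth (K : Type) [Field K] : ℕ := Nat.card {u : 𝓞 K // u ^ 4 = 1}

/-- The central value is odd: `Φ(0)`, the limit of `Φ(0, t)` for `t → 0`, is not in `2 w Λ`. -/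
def OddCentralValue (σ : K →+* ℂ) (δ : K) (n : 𝓞 K) (c : Ideal (𝓞 K) → ℂ) : Prop :=
  ∃ z₀ : ℂ, Tendsto (fun t => primitive σ δ c 0 t) (𝓝[>] 0) (𝓝 z₀) ∧
    ∀ y ∈ Lam σ δ n c, z₀ ≠ 2 * fourth K * y

/-- The number of the affine points of `y² = x³ + a x + b` over the residue field of `v`. -/
noncomputable def points (a b : 𝓞 K) (v : HeightOneSpectrum (𝓞 K)) : ℕ :=
  Nat.card {x : (𝓞 K ⧸ v.asIdeal) × (𝓞 K ⧸ v.asIdeal) //
    x.2 ^ 2 = x.1 ^ 3 + (Ideal.Quotient.mk v.asIdeal a) * x.1 + (Ideal.Quotient.mk v.asIdeal b)}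

/-- `f` is the newform of `E : y² = x³ + a x + b`: for `v ∤ 2(4a³ + 27b²)` (so that `E` has good reduction at `v`)
the level is prime to `v` and `c(v) = N(v) + 1 - #E(𝓞/v)`. -/
def IsNewformOf (a b n : 𝓞 K) (c : Ideal (𝓞 K) → ℂ) : Prop :=
  ∀ v : HeightOneSpectrum (𝓞 K), 2 * (4 * a ^ 3 + 27 * b ^ 2) ∉ v.asIdeal →
    n ∉ v.asIdeal ∧ c v.asIdeal = (Ideal.absNorm v.asIdeal : ℂ) - points a b v

section selmer
variable {L : Type} [Field L] [NumberField L] [Algebra K L]

/-- `L = K(θ)` is the cubic field of `E`: `θ³ + a θ + b = 0`, and every element of `L` is `u + v θ + w θ²` for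
unique `u, v, w ∈ K`.  So `x³ + a x + b` is irreducible over `K`, that is, `E(K)[2] = 0`. -/
structure IsCubicField (a b : 𝓞 K) (θ : L) : Prop where
  root : θ ^ 3 + algebraMap K L a * θ + algebraMap K L b = 0
  basis : ∀ β : L, ∃! t : K × K × K,
    β = algebraMap K L t.1 + algebraMap K L t.2.1 * θ + algebraMap K L t.2.2 * θ ^ 2

/-- The class of `α` in `(K_v ⊗ L)^×` modulo squares is in the group generated by the images of the points
`(x, y)`, `y ≠ 0`, of `E(K_v)` under the Kummer map `(x, y) ↦ x - θ`.  (This group is the image of `E(K_v)/2E(K_v)`, as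
the map is a homomorphism and all classes contain points with `y ≠ 0`.) -/
def LocalCondition (a b : 𝓞 K) (θ : L) (v : HeightOneSpectrum (𝓞 K)) (α : L) : Prop :=
  ∃ s : List (v.adicCompletion K),
    (∀ x ∈ s, ∃ y : v.adicCompletion K, y ≠ 0 ∧
      y ^ 2 = x ^ 3 + algebraMap K (v.adicCompletion K) a * x +
        algebraMap K (v.adicCompletion K) b) ∧
    IsSquare (((1 : v.adicCompletion K) ⊗ₜ[K] α) *
      (s.map fun x => x ⊗ₜ[K] (1 : L) - 1 ⊗ₜ[K] θ).prod)

/-- The `2`-Selmer group of `E/K` is trivial.  As `E(K)[2] = 0` and `K` has no real places, it is the group of the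
classes of `α ∈ L^×` modulo squares such that the norm of `α` is a square, `w(α)` is even for all places
`w ∤ 2(4a³ + 27b²)` of `L`, and `α` satisfies the local conditions at the places `v ∣ 2(4a³ + 27b²)` of `K`. -/
def TrivialSelmer (a b : 𝓞 K) (θ : L) : Prop :=
  ∀ α : L, α ≠ 0 → IsSquare (Algebra.norm K α) →
    (∀ w : HeightOneSpectrum (𝓞 L), algebraMap (𝓞 K) (𝓞 L) (2 * (4 * a ^ 3 + 27 * b ^ 2)) ∉
      w.asIdeal → IsSquare (w.valuation L α)) →
    (∀ v : HeightOneSpectrum (𝓞 K), 2 * (4 * a ^ 3 + 27 * b ^ 2) ∈ v.asIdeal →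
      LocalCondition a b θ v α) → IsSquare α

end selmer

/-- The admissible places: `v ∤ 2(4a³ + 27b²)`, and `x³ + a x + b` has no root modulo `v`. -/
def Admissible (a b : 𝓞 K) (v : HeightOneSpectrum (𝓞 K)) : Prop :=
  2 * (4 * a ^ 3 + 27 * b ^ 2) ∉ v.asIdeal ∧ ∀ x : 𝓞 K, x ^ 3 + a * x + b ∉ v.asIdeal

/-- `χ` is a character of `K` of `2`-power order and of conductor `∏_{v ∈ T} v`, as a function on `𝓞` (`K` has class
number one): a primitive character modulo the product of the `v ∈ T`, trivial on the units, and zero on the `x` which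
are not prime to the conductor. -/
structure IsCharacter (T : Finset (HeightOneSpectrum (𝓞 K))) (χ : 𝓞 K → ℂ) : Prop where
  one : χ 1 = 1
  mul : ∀ x y, χ (x * y) = χ x * χ y
  zero : ∀ x, χ x = 0 ↔ ∃ v ∈ T, x ∈ v.asIdeal
  periodic : ∀ x y, (∀ v ∈ T, x - y ∈ v.asIdeal) → χ x = χ y
  units : ∀ u, IsUnit u → χ u = 1
  primitive : ∀ v ∈ T, ∃ x, (∀ v' ∈ T, v' ≠ v → x - 1 ∈ v'.asIdeal) ∧ χ x ≠ 0 ∧ χ x ≠ 1
  order : ∃ k : ℕ, ∀ x, χ x ≠ 0 → χ x ^ 2 ^ k = 1

section extension

variable (F : Type) [Field F] [NumberField F] [Algebra K F]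

/-- The places `u` of `F` above `v`. -/
def Above (v : HeightOneSpectrum (𝓞 K)) : Type :=
  {u : HeightOneSpectrum (𝓞 F) // u.asIdeal.comap (algebraMap (𝓞 K) (𝓞 F)) = v.asIdeal}

/-- `F/K` is a finite Galois extension of `2`-power degree, unramified outside of the admissible places of `K`, and the
places `v ∣ 2(4a³ + 27b²)` split completely in `F` (there is an embedding of `F` in `K_v`). -/
structure IsTwoExtension (a b : 𝓞 K) : Prop where
  galois : IsGalois K F
  degree : ∃ k : ℕ, Module.finrank K F = 2 ^ k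
  split : ∀ v : HeightOneSpectrum (𝓞 K), 2 * (4 * a ^ 3 + 27 * b ^ 2) ∈ v.asIdeal →
    Nonempty (F →ₐ[K] v.adicCompletion K)
  unramified : ∀ v : HeightOneSpectrum (𝓞 K), 2 * (4 * a ^ 3 + 27 * b ^ 2) ∉ v.asIdeal →
    ¬ Admissible a b v → ∀ u : Above F v, ∀ x : K,
      u.1.valuation F (algebraMap K F x) = v.valuation K x

end extension

section characters

variable [IsPrincipalIdealRing (𝓞 K)] {𝒢 : Type} [CommGroup 𝒢]

/-- `χ_g`, `g ∈ 𝒢`, are characters of `K` of `2`-power order which form a group, `g ↦ χ_g` being a homomorphism; the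
conductor of `χ_g` is `∏_{v ∈ T g} v`, a product of different admissible places. -/
structure IsCharacterGroup (a b : 𝓞 K) (T : 𝒢 → Finset (HeightOneSpectrum (𝓞 K)))
    (χ : 𝒢 → 𝓞 K → ℂ) : Prop where
  char : ∀ g, IsCharacter (T g) (χ g)
  mul : ∀ g h x, χ g x ≠ 0 → χ h x ≠ 0 → χ (g * h) x = χ g x * χ h x
  admissible : ∀ g, ∀ v ∈ T g, Admissible a b v

/-- The value `χ(v)` of a character `χ` of `K` at a place `v`: `χ(x)` for the generators `x` of the ideal `v`; it is zero if
`v` divides the conductor. -/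
noncomputable def at_ (χ : 𝓞 K → ℂ) (v : HeightOneSpectrum (𝓞 K)) : ℂ :=
  χ (Submodule.IsPrincipal.generator v.asIdeal)

/-- The number of the different nonzero values `χ_g(v)`, `g ∈ 𝒢`. -/
noncomputable def values (χ : 𝒢 → 𝓞 K → ℂ) (v : HeightOneSpectrum (𝓞 K)) : ℕ :=
  Nat.card {z : ℂ // z ≠ 0 ∧ ∃ g, at_ (χ g) v = z}

/-- `F` is the class field of the group of characters `χ_g`, `g ∈ 𝒢`: `[F:K]` is the order of `𝒢`, and the places of `K`
decompose in `F` according to the decomposition law of class field theory: if `f` is the number of the different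
nonzero values `χ_g(v)`, then `N(u) = N(v)^f` for all places `u` of `F` above `v`, and the number of these places is
`#{g ∈ 𝒢 : χ_g(v) ≠ 0} / f`. -/
structure IsClassField (F : Type) [Field F] [NumberField F] [Algebra K F] (χ : 𝒢 → 𝓞 K → ℂ) :
    Prop where
  degree : Module.finrank K F = Nat.card 𝒢
  norm : ∀ (v : HeightOneSpectrum (𝓞 K)) (u : Above F v),
    Ideal.absNorm u.1.asIdeal = Ideal.absNorm v.asIdeal ^ values χ v
  card : ∀ v : HeightOneSpectrum (𝓞 K),
    Nat.card (Above F v) * values χ v = Nat.card {g // at_ (χ g) v ≠ 0}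

end characters

/-- `powerSum t q j = α ^ j + β ^ j` for `α + β = t`, `α β = q`. -/
noncomputable def powerSum (t q : ℂ) : ℕ → ℂ
  | 0 => 2
  | 1 => t
  | j + 2 => t * powerSum t q (j + 1) - q * powerSum t q j

section lfunction

variable {F : Type} [Field F] [NumberField F] [Algebra K F]

open Classical in
/-- The Euler factor of `L(E/F, s)` at the place `u` of `F`.  Let `v` be the place of `K` below `u` and
`N(u) = N(v)^f`.  If `v ∤ 2(4a³ + 27b²)`, it is `(1 - a_u N(u)^(-s) + N(u)^(1 - 2s))⁻¹`, where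
`a_u = N(u) + 1 - #E(𝓞_F/u)`.  If `v ∣ 2(4a³ + 27b²)` (these places will split completely in `F`, so that `f = 1` and
`F_u = K_v`), it is given by the eigenvalue `c(v)` of the newform of `E`:
`(1 - (α^f + β^f) N(u)^(-s) + N(u)^(1 - 2s))⁻¹` with `α + β = c(v)`, `α β = N(v)` if `v` does not divide the
level `n`, and `(1 - c(v)^f N(u)^(-s))⁻¹` if it does. -/
noncomputable def eulerFactor (a b n : 𝓞 K) (c : Ideal (𝓞 K) → ℂ) (s : ℂ)
    (u : HeightOneSpectrum (𝓞 F)) : ℂ :=
  if 2 * (4 * a ^ 3 + 27 * b ^ 2) ∈ u.asIdeal.comap (algebraMap (𝓞 K) (𝓞 F)) then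
    if n ∈ u.asIdeal.comap (algebraMap (𝓞 K) (𝓞 F)) then
      (1 - c (u.asIdeal.comap (algebraMap (𝓞 K) (𝓞 F))) ^
          (Nat.log (Ideal.absNorm (u.asIdeal.comap (algebraMap (𝓞 K) (𝓞 F))))
            (Ideal.absNorm u.asIdeal)) * (Ideal.absNorm u.asIdeal : ℂ) ^ (-s))⁻¹
    else
      (1 - powerSum (c (u.asIdeal.comap (algebraMap (𝓞 K) (𝓞 F))))
          (Ideal.absNorm (u.asIdeal.comap (algebraMap (𝓞 K) (𝓞 F))))
          (Nat.log (Ideal.absNorm (u.asIdeal.comap (algebraMap (𝓞 K) (𝓞 F))))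
            (Ideal.absNorm u.asIdeal)) * (Ideal.absNorm u.asIdeal : ℂ) ^ (-s) +
        (Ideal.absNorm u.asIdeal : ℂ) ^ (1 - 2 * s))⁻¹
  else
    (1 - ((Ideal.absNorm u.asIdeal : ℂ) -
          points (algebraMap (𝓞 K) (𝓞 F) a) (algebraMap (𝓞 K) (𝓞 F) b) u) *
          (Ideal.absNorm u.asIdeal : ℂ) ^ (-s) +
      (Ideal.absNorm u.asIdeal : ℂ) ^ (1 - 2 * s))⁻¹

variable (F) in
/-- `G` is the continuation of `L(E/F, s)`: it is an entire function, and for `Re s > 2` it is the product of the Euler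
factors at all the finite places of `F`. -/
def IsLFunction (a b n : 𝓞 K) (c : Ideal (𝓞 K) → ℂ) (G : ℂ → ℂ) : Prop :=
  Differentiable ℂ G ∧ ∀ s : ℂ, 2 < s.re →
    HasProd (fun u : HeightOneSpectrum (𝓞 F) => eulerFactor a b n c s u) (G s)

end lfunction

end field

/-- The curve `E : y² = x³ + a x + b` over the field `F`. -/
def curve {F : Type} [Field F] (a b : F) : WeierstrassCurve F := ⟨0, 0, 0, a, b⟩

section field

variable {K : Type} [Field K] [NumberField K]

/-- The curve `E : y² = x³ + a x + b` over `F`. -/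
abbrev EF (F : Type) [Field F] [NumberField F] [Algebra K F] (a b : 𝓞 K) : WeierstrassCurve F :=
  curve (algebraMap K F a) (algebraMap K F b)

open Classical in
/-- The rank part of the conjecture of Birch and Swinnerton-Dyer for `E/F`, with both sides zero, where `G` is the
continuation of `L(E/F, s)`, and the `2`-primary parts: the order of vanishing of `G` at `s = 1` is the rank of `E(F)` and
zero; `E(F)` is finite of odd order; the Tate-Shafarevich group `Ш(E/F)` (`Sha`: the continuous cocycles of the absolute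
Galois group with values in the points over an algebraic closure which are coboundaries at all the places, modulo the
coboundaries) has no element of order two, hence its `2`-primary part is zero; and `H¹_f(F, V_2 E) = 0`. -/
structure Conclusion (F : Type) [Field F] [NumberField F] [Algebra K F] (a b : 𝓞 K) (G : ℂ → ℂ) :
    Prop where
  rank : analyticOrderAt G 1 = ((Module.finrank ℤ (EF F a b).toAffine.Point : ℕ) : ℕ∞)
  zero : analyticOrderAt G 1 = 0
  finite : Finite (EF F a b).toAffine.Point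
  odd : Odd (Nat.card (EF F a b).toAffine.Point)
  sha : ∀ (k : ℕ) (s : Pool.Agent.TH841.NF.D.Sha (EF F a b)), (2 ^ k : ℕ) • s = 0 → s = 0
  h1f : ∀ x : Pool.Agent.Y667.BKP.H1f 2 (EF F a b), x = 0

end field

/-- **Theorem.** Let `K` be an imaginary quadratic field of class number one, `E : y² = x³ + a x + b` an elliptic
curve over `K` with the Bianchi newform `f` of level `(n)` and eigenvalues `c`.  Suppose that `E(K)[2] = 0`, the
`2`-Selmer group of `E/K` is trivial and the central value of `f` is odd.  (1) Let `F/K` be a Galois extension which is the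
class field of a finite group `𝒢` of characters of `K` of `2`-power order whose conductors are products of different
admissible places, and in which the places `v ∣ 2(4a³ + 27b²)` split completely.  Then the functions `L(E/K, s)` and
`L(E/F, s)` have continuations `G₀` and `G` to `ℂ`; the rank part of the conjecture of Birch and Swinnerton-Dyer holds for
`E/F` with both sides zero, `E(F)` is finite of odd order, `Ш(E/F)[2^∞] = 0`; and there are an odd integer `k` and
algebraic integers `τ`, `x` such that `|τ|²` is the product of the norms of the conductors of the `χ ∈ 𝒢`, `x` is prime to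
`2`, and `k τ L(E/F, 1) = x L(E/K, 1) ^ [F:K]`, where `L(E/K, 1) = (2π/|σ δ|)² Φ(0) / #𝓞ˣ ≠ 0`.  (2) For every finite
abelian group `A ≠ 1` of `2`-power order there are infinitely many fields `F` (in the algebraic closure of `K`) as in (1)
with `Gal(F/K) ≅ A`. -/
theorem result (K : Type) [Field K] [NumberField K] [IsPrincipalIdealRing (𝓞 K)] (σ : K →+* ℂ)
    (δ : K) (hK : IsFieldData K σ δ) (a b n : 𝓞 K) (hΔ : 4 * a ^ 3 + 27 * b ^ 2 ≠ 0)
    (c : Ideal (𝓞 K) → ℂ) (hf : IsNewform σ δ n c) (hE : IsNewformOf a b n c)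
    (hodd : OddCentralValue σ δ n c)
    (L : Type) [Field L] [NumberField L] [Algebra K L] (θ : L)
    (hθ : IsCubicField a b θ) (hS : TrivialSelmer a b θ) :
    (∀ (𝒢 : Type) [CommGroup 𝒢] [Finite 𝒢] (T : 𝒢 → Finset (HeightOneSpectrum (𝓞 K)))
      (χ : 𝒢 → 𝓞 K → ℂ) (F : Type) [Field F] [NumberField F] [Algebra K F],
      IsCharacterGroup a b T χ → IsTwoExtension F a b → IsClassField F χ →
      ∃ (G₀ G : ℂ → ℂ) (τ x : integralClosure ℤ ℂ) (k : ℤ),
        IsLFunction K a b n c G₀ ∧ IsLFunction F a b n c G ∧ Conclusion F a b G ∧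
        Odd k ∧ ‖(τ : ℂ)‖ ^ 2 = ∏ᶠ g, ∏ v ∈ T g, (Ideal.absNorm v.asIdeal : ℝ) ∧ IsCoprime x 2 ∧
        k * τ * G 1 = x * G₀ 1 ^ Module.finrank K F ∧
        (∃ z₀ : ℂ, Tendsto (fun t => primitive σ δ c 0 t) (𝓝[>] 0) (𝓝 z₀) ∧
          G₀ 1 = (2 * Real.pi / ‖σ δ‖) ^ 2 / (Nat.card (𝓞 K)ˣ : ℂ) * z₀) ∧ G₀ 1 ≠ 0) ∧
    ∀ (A : Type) [CommGroup A] [Finite A] [Nontrivial A] (m : ℕ), Nat.card A = 2 ^ m →
      {F : IntermediateField K (AlgebraicClosure K) | ∃ _ : NumberField F,
        (∃ (𝒢 : Type) (_ : CommGroup 𝒢) (_ : Finite 𝒢)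
          (T : 𝒢 → Finset (HeightOneSpectrum (𝓞 K))) (χ : 𝒢 → 𝓞 K → ℂ),
          IsCharacterGroup a b T χ ∧ IsTwoExtension F a b ∧ IsClassField F χ) ∧
        Nonempty ((F ≃ₐ[K] F) ≃* A)}.Infinite := by
  classical
  have h : K4H55.BI.IQ K σ δ := ⟨hK.quadratic, hK.imaginary, inferInstance, hK.different⟩
  have hf' : K4H55.BI.BF σ δ n c := ⟨hf.level, hf.zero, hf.one, hf.bound, hf.good, hf.bad,
    hf.invariant, hf.fricke⟩
  have hcub : K4H55.BD.Cub K θ := by
    refine ⟨fun p q r h0 => ?_, fun β => ?_⟩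
    · obtain ⟨t, ht, hu⟩ := hθ.basis 0
      have h1 := hu (p, q, r) h0.symm
      have h2 := hu (0, 0, 0) (by simp)
      have h3 := h1.trans h2.symm
      simp only [Prod.mk.injEq] at h3
      exact h3
    · obtain ⟨t, ht, -⟩ := hθ.basis β
      exact ⟨t.1, t.2.1, t.2.2, ht⟩
  have hadm : ∀ v, Admissible a b v → (2 : 𝓞 K) ∉ v.asIdeal ∧
      n ∉ v.asIdeal ∧ ∃ m : ℤ, c v.asIdeal = m ∧ m % 2 = 1 := by
    intro v hv
    have h2 : (2 : 𝓞 K) ∉ v.asIdeal := fun h2 => hv.1 (v.asIdeal.mul_mem_right _ h2)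
    refine ⟨h2, (hE v hv.1).1, (Ideal.absNorm v.asIdeal : ℤ) - points a b v, ?_, ?_⟩
    · rw [(hE v hv.1).2]
      push_cast
      ring
    · obtain ⟨k, hk⟩ := K4H55.BD.pv_even (a := a) (b := b) h2 hv.2
      have hk' : points a b v = 2 * k := hk
      have h6 := K4H55.BM.norm_odd h2
      rw [Nat.odd_iff] at h6
      omega
  have hch : ∀ (T : Finset (HeightOneSpectrum (𝓞 K))) (χ : 𝓞 K → ℂ), IsCharacter T χ →
      K4H55.CX.CH T χ := fun T χ h1 =>
    ⟨h1.one, h1.mul, h1.zero, h1.periodic, h1.units, h1.primitive, h1.order⟩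
  obtain ⟨ω, hω', hω⟩ := hf.cyclic
  obtain ⟨z, hz, hzo⟩ := hodd
  have hz0 : z ≠ 0 := by
    have := hzo 0 (AddSubgroup.zero_mem _)
    rwa [mul_zero] at this
  have hE' : ∀ v : HeightOneSpectrum (𝓞 K), 2 * (4 * a ^ 3 + 27 * b ^ 2) ∉ v.asIdeal →
      n ∉ v.asIdeal ∧ c v.asIdeal = (Ideal.absNorm v.asIdeal : ℂ) - K4H55.BD.pv a b v :=
    fun v hv => hE v hv
  -- the Euler factors
  have hps : ∀ (t q : ℂ) (j : ℕ), powerSum t q j = K4H55.CX.luc t q j := by
    intro t q j
    induction j using Nat.twoStepInduction with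
    | zero => rfl
    | one => rfl
    | more j h1 h2 => rw [powerSum, K4H55.CX.luc, h1, h2]
  have hef : ∀ (M : Type) [Field M] [NumberField M] [Algebra K M] (s : ℂ)
      (u : HeightOneSpectrum (𝓞 M)), eulerFactor a b n c s u = U81.BX.fct a b n c s u := by
    intro M _ _ _ s u
    unfold eulerFactor U81.BX.fct K4H55.CX.facF
    simp only [hps]
    rfl
  -- over K
  obtain ⟨G₀, k1, k2, k3⟩ := K4H55.CX.chr_one h hf' hz
  refine ⟨fun 𝒢 _ _ T χ F _ _ _ hχ hF hcl => ?_, fun A _ _ _ m hA => ?_⟩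
  rotate_left
  · -- the class
    obtain ⟨S, k, hSk, hinf⟩ := U81.AT.exists_levels
      (P := fun k q => q ∈ K4H55.BD.QE h a b n ∧ U81.AT.Bd a b k q)
      (fun m => (U81.AT.dens_top h hΔ hf.level hcub hθ.root m).2)
    refine (U81.AT.realize (K := K) (fun q hq => (hSk q hq).1.1.pr)
      (fun q hq => U81.AT.val_of h (hSk q hq).1.1) (fun q hq => (hSk q hq).2.1) hinf hA).mono ?_
    rintro F ⟨hFS, hNF, hiso⟩
    have hfdF : FiniteDimensional K F := FiniteDimensional.right ℚ K F
    obtain ⟨S', hS', hF'⟩ := U81.AT.exists_finset F hFS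
    have hcnd := U81.AT.cnd_of (a := a) (b := b) (n := n) (S := S') (k := k) h
      (fun q hq => (hSk q (hS' hq)).1) (fun q hq => (hSk q (hS' hq)).2.2)
    obtain ⟨l1, l2, l3, l4, l5, 𝒢, i1, i2, T, χ, hcf, hlaw, hT, hdeg⟩ := U81.AT.layer h hcnd F hF'
    have hadm' : ∀ v : HeightOneSpectrum (𝓞 K), (∃ q ∈ S', (q : 𝓞 K) ∈ v.asIdeal) →
        Admissible a b v := by
      rintro v ⟨q, hq, hqv⟩
      obtain ⟨h1, h2, h3⟩ := (hSk q (hS' hq)).1.2 v hqv
      exact ⟨h1, h3⟩
    refine ⟨hNF, ⟨𝒢, i1, i2, T, χ, ⟨fun g => ?_, hcf.mul, fun g v hv => hadm' v (hT g v hv)⟩,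
      ⟨l1, l3, l4, fun v hv hna u x => ?_⟩, ⟨hdeg, fun v u => hlaw.norm v u.1 u.2, hlaw.card⟩⟩,
      hiso⟩
    · have h1 := hcf.ch g
      exact ⟨h1.one, h1.mul, h1.zero, h1.prd, h1.unit, h1.prim, h1.pow⟩
    · obtain ⟨u, hu⟩ := u
      have hlow : K4H55.BD.low (K := K) u = v := HeightOneSpectrum.ext hu
      subst hlow
      exact l5 u (fun q hq hqv => hna (hadm' _ ⟨q, hq, hqv⟩)) x
  have hcf : K4H55.CX.CF T χ := ⟨fun g => hch _ _ (hχ.char g), hχ.mul⟩
  have hlaw : K4H55.CX.Law F χ := ⟨fun v u hu => hcl.norm v ⟨u, hu⟩, hcl.card⟩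
  -- over F
  obtain ⟨G, τ, x, k, g1, g2, g3, g4, g5, g6⟩ := K4H55.CX.ab_unit h hf' hcf hlaw
    (fun g v hv => hadm v (hχ.admissible g v hv)) hz hω hω' hzo
  have hG0 : G₀ 1 ≠ 0 := by
    rw [k3]
    exact mul_ne_zero (K4H55.CX.A_ne h) hz0
  have hG1 : G 1 ≠ 0 := by
    rw [← k3] at g6
    exact K4H55.CX.ne_of_unit g5 hG0 g6
  -- the points
  have hG := hF.galois
  obtain ⟨kk, hk⟩ := hF.degree
  obtain ⟨⟨h1, h1'⟩, h2, h3⟩ := K4H55.CX.fin_up (F := F) hΔ hcub hθ.root hS hk hF.split
    (fun u hu => by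
      by_cases h3 : ∀ X : 𝓞 K, X ^ 3 + a * X + b ∉ (K4H55.BD.low (K := K) u).asIdeal
      · exact Or.inl h3
      · exact Or.inr fun x => hF.unramified _ hu (fun h4 => h3 h4.2) ⟨u, rfl⟩ x)
  have hrk : Module.finrank ℤ (EF F a b).toAffine.Point = 0 := by
    have hfin : Finite (EF F a b).toAffine.Point := h1
    apply Module.IsTorsion.finrank_eq_zero
    intro P
    refine ⟨⟨(Nat.card (EF F a b).toAffine.Point : ℤ), ?_⟩, ?_⟩
    · rw [mem_nonZeroDivisors_iff_ne_zero]
      exact_mod_cast Nat.card_pos.ne'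
    · show (Nat.card (EF F a b).toAffine.Point : ℤ) • P = 0
      rw [natCast_zsmul]
      exact card_nsmul_eq_zero'
  have hord : analyticOrderAt G 1 = 0 := analyticOrderAt_eq_zero.2 (Or.inr hG1)
  refine ⟨G₀, G, τ, x, k, ⟨k1, fun s hs => ?_⟩, ⟨g1, fun s hs => ?_⟩,
    ⟨by rw [hord, hrk]; rfl, hord, h1, h1', h2, h3⟩, g3, g4, g5, ?_, ⟨z, hz, k3⟩, hG0⟩
  · have h5 := k2 s hs
    refine (congrArg (fun g => HasProd g (G₀ s)) (funext fun v => ?_)).mp h5
    rw [hef K s v, U81.BX.fct_self hE' s v]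
  · have h5 : HasProd (U81.BX.fct (F := F) a b n c s) (G s) := by
      refine U81.BX.hasProd_fct hΔ hE' (fun u => ⟨_, hcl.norm (K4H55.BD.low (K := K) u) ⟨u, rfl⟩⟩)
        (fun v => ?_) (by linarith) (g2 s hs)
      have h6 := hcl.card v
      have hpos : 0 < Nat.card {g // at_ (χ g) v ≠ 0} := by
        have : Nonempty {g // at_ (χ g) v ≠ 0} := ⟨⟨1, by
          unfold at_
          rw [hcf.triv]
          exact one_ne_zero⟩⟩
        exact Nat.card_pos
      have h7 : Nat.card (Above F v) ≠ 0 := by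
        intro h0
        rw [h0, zero_mul] at h6
        omega
      exact Nat.finite_of_card_ne_zero h7
    refine (congrArg (fun g => HasProd g (G s)) (funext fun v => ?_)).mp h5
    exact (hef F s v).symm
  · rw [hcl.degree, k3]
    exact g6

end Pool.Agent.Results.MP_1a91b9_nt.BianchiTwoExtensions
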