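import Pool.Agent.Results.MP_1a91b9_nt.PositiveProportionGaussianTwists
import Pool.Agent.U695.XG.Dens
import Pool.Agent.U695.XG.Crt

/-!
# The Birch and Swinnerton-Dyer conjecture over `ℚ(i)` for `6.99 %` of all quadratic twists of
# `y² = x³ - x`; the exact proportion of the twists with trivial 2-descent

`K` is a number field with an isomorphism `e` of the ring `ℤ[i]` of Gaussian integers with its ring
of integers (so `K = ℚ(i)`), and `E_D : y² = x³ - D² x` the quadratic twist of `y² = x³ - x` by
the Gaussian integer `D`.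

A primary (`1` modulo `2 + 2i`) Gaussian integer `D` is called *indecomposable* if it is not the product of two
primary Gaussian integers `d, d' ≠ 1` which are squares modulo each other. For `D` squarefree this is
the condition that the Laplacian over the field with two elements of the graph of the pairs of prime factors
of `D` that are not squares modulo each other has only the constants in its kernel.

* THE CRITERION. If `D` is primary, squarefree, with norm `5` modulo `8`, and indecomposable, then the
  `L`-function of `E_D` over `K` is entire with order of vanishing zero at `s = 1`, and `E_D(K)` has rank zero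
  and exactly four elements.
* THE EXACT PROPORTION. Ordered by norm, exactly the proportion
  `c = ∏_{i ≥ 0} (1 - 2^{-(2i+1)}) = 0.4194...` of all primary squarefree `D` with norm `5` modulo `8` is
  indecomposable.
* ALL TWISTS. The conclusion of the criterion holds for a set of squarefree Gaussian integers `D` of lower
  density at least `c/6 = 0.0699...` among all squarefree Gaussian integers (of odd and even norm, with all
  units), ordered by norm.

The criterion is from the starting library (`MP_1a91b9_nt.PositiveProportionGaussianTwists.twist_good`), where a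
positive lower density without an explicit value is proved for it. New are the exact proportion and the
explicit share. The proof (`Pool/Agent/U695/XG`) is a transport of the library project XK (cubic symbols over
`ℤ[ω]`, by helpers 363, 710, 804, 528, 85, 688, 697, 474, 433, 550, 703) to the quadratic symbols
of `ℤ[i]`: bilinear sums and boxes for the large prime factors, the count of symmetric matrices over
`𝔽₂` with prescribed blocks, and mean values of multiplicative functions (library `Y699` of helper699) for the
exceptional `D`; the share of the class uses a sieve for squarefree elements.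
-/

set_option autoImplicit false

open scoped Classical

namespace Pool.Agent.Results.MP_1a91b9_nt.ExactShareGaussianTwists

open Filter NumberField
open Pool.Agent.Results.MP_1a91b9_nt.PositiveProportionGaussianTwists (twist BSDRank Primary)

/-- `a` is a square modulo `m` -/
def SquareModulo (a m : GaussianInt) : Prop := ∃ b : GaussianInt, m ∣ a - b ^ 2

/-- `D` is not a product of two primary elements different from `1` which are squares modulo each
other -/
def Indecomposable (D : GaussianInt) : Prop :=
  ∀ d d' : GaussianInt, Primary d → Primary d' → D = d * d' → SquareModulo d' d →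
    SquareModulo d d' → d = 1 ∨ d' = 1

/-- the primary squarefree Gaussian integers with norm `5` modulo `8` -/
def Class : Set GaussianInt := {D | Primary D ∧ Squarefree D ∧ D.norm % 8 = 5}

/-- the conclusion for the curve `y² = x³ - D² x` over `K = ℚ(i)`: the rank part of the conjecture with
order of vanishing and rank equal to zero, and exactly four points -/
def Conclusion (D : GaussianInt) : Prop :=
  ∀ (K : Type) [Field K] [NumberField K] [DecidableEq K] (e : GaussianInt ≃+* 𝓞 K),
    BSDRank (twist e D) 0 ∧ Nat.card (twist e D).toAffine.Point = 4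

/-- the number of the elements of norm at most `X` of a set of Gaussian integers -/
noncomputable def count (S : Set GaussianInt) (X : ℕ) : ℕ := {D : GaussianInt | D ∈ S ∧ D.norm ≤ X}.ncard

/-- the constant `(1 - 1/2) (1 - 1/8) (1 - 1/32) ⋯` -/
noncomputable def c : ℝ := ∏' i : ℕ, (1 - (1 / 2 : ℝ) ^ (2 * i + 1))

section proof

open Pool.Agent.U695.XG
open Pool.Agent.Y699 (PS PD Good)
open H385 (nrm)

theorem le_iff (D : GaussianInt) (X : ℕ) : D.norm ≤ X ↔ nrm D ≤ X := by
  rw [← Pool.Agent.Y699.nrm_cast D]
  exact Nat.cast_le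

theorem ps_iff {D : GaussianInt} : PS D ↔ Primary D ∧ Squarefree D := by
  constructor
  · rintro ⟨h1, h2⟩
    exact ⟨(Pool.Agent.W164.RC.prim_iff_dvd D).1 h1, h2⟩
  · rintro ⟨h1, h2⟩
    exact ⟨(Pool.Agent.W164.RC.prim_iff_dvd D).2 h1, h2⟩

theorem mem_class {D : GaussianInt} : D ∈ Class ↔ NSf.El {5, 13} D := by
  rw [NSf.el5, ps_iff]
  exact ⟨fun h => ⟨⟨h.1, h.2.1⟩, h.2.2⟩, fun h => ⟨h.1.1, h.1.2, h.2⟩⟩

theorem ind_iff {D : GaussianInt} (hD : PS D) : Indecomposable D ↔ Gd (PD D) := Crt.ind_iff hD

theorem count_class (X : ℕ) : count Class X = (SS {5, 13} X).card := by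
  rw [← NSf.card_el]
  unfold count
  congr 1
  ext D
  constructor
  · rintro ⟨h1, h2⟩
    exact ⟨(le_iff D X).1 h2, mem_class.1 h1⟩
  · rintro ⟨h1, h2⟩
    exact ⟨mem_class.2 h2, (le_iff D X).2 h1⟩

theorem count_good (X : ℕ) :
    count {D | D ∈ Class ∧ Indecomposable D} X = ((SS {5, 13} X).filter Gd).card := by
  rw [← NSf.card_eq]
  unfold count
  congr 1
  ext D
  constructor
  · rintro ⟨⟨h1, h3⟩, h2⟩
    have h4 := mem_class.1 h1
    exact ⟨(le_iff D X).1 h2, h4, (ind_iff h4.1).1 h3⟩
  · rintro ⟨h1, h2, h3⟩
    exact ⟨⟨mem_class.2 h2, (ind_iff h2.1).2 h3⟩, (le_iff D X).2 h1⟩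

theorem count_sqf (X : ℕ) : count {D | Squarefree D} X = (Dn.Sq X).ncard := by
  unfold count
  congr 1
  ext D
  exact ⟨fun h => ⟨h.1, (le_iff D X).1 h.2⟩, fun h => ⟨h.1, (le_iff D X).2 h.2⟩⟩

theorem conclusion {D : GaussianInt} (h : D ∈ Class) (hi : Indecomposable D) : Conclusion D := by
  intro K _ _ _ e
  have h1 := mem_class.1 h
  exact Pool.Agent.Results.MP_1a91b9_nt.PositiveProportionGaussianTwists.twist_good
    (NSf.good_iff.2 ⟨h1, (ind_iff h1.1).1 hi⟩) K e

theorem conclusion_neg {D : GaussianInt} (h : Conclusion D) : Conclusion (-D) := by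
  intro K _ _ _ e
  have h1 : twist e (-D) = twist e D := by
    unfold Pool.Agent.Results.MP_1a91b9_nt.PositiveProportionGaussianTwists.twist
    rw [map_neg, map_neg, neg_sq]
  rw [h1]
  exact h K e

theorem fin_count (S : Set GaussianInt) (X : ℕ) : {D : GaussianInt | D ∈ S ∧ D.norm ≤ X}.Finite :=
  (Pool.Agent.Y699.fin_norm_le X).subset fun D h => (le_iff D X).1 h.2

/-- `D` and `- D` -/
theorem twice (X : ℕ) : 2 * count {D | D ∈ Class ∧ Indecomposable D} X ≤
    count {D | Squarefree D ∧ Conclusion D} X := by
  set A : Set GaussianInt := {D | D ∈ {D | D ∈ Class ∧ Indecomposable D} ∧ D.norm ≤ X} with hA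
  have hAf : A.Finite := fin_count _ X
  have h1 : A ∪ (fun D => -D) '' A ⊆
      {D : GaussianInt | D ∈ {D | Squarefree D ∧ Conclusion D} ∧ D.norm ≤ X} := by
    rintro D (⟨⟨h1, h2⟩, h3⟩ | ⟨D, ⟨⟨h1, h2⟩, h3⟩, rfl⟩)
    · exact ⟨⟨h1.2.1, conclusion h1 h2⟩, h3⟩
    · refine ⟨⟨?_, conclusion_neg (conclusion h1 h2)⟩, ?_⟩
      · exact (Associated.refl D).neg_left.squarefree_iff.2 h1.2.1
      · show (-D).norm ≤ X
        rw [Zsqrtd.norm_neg]
        exact h3
  have h2 : Disjoint A ((fun D => -D) '' A) := by
    rw [Set.disjoint_left]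
    rintro D ⟨⟨⟨h3, -, -⟩, -⟩, -⟩ ⟨D', ⟨⟨⟨h4, -, -⟩, -⟩, -⟩, h5⟩
    have h6 : D = -D' := h5.symm
    subst h6
    have h7 := (Pool.Agent.W164.RC.prim_iff_dvd _).2 h3
    have h8 := (Pool.Agent.W164.RC.prim_iff_dvd _).2 h4
    obtain ⟨a1, a2⟩ := h7
    obtain ⟨b1, b2⟩ := h8
    rw [Zsqrtd.re_neg, Zsqrtd.im_neg] at a2
    omega
  have h3 := Set.ncard_le_ncard h1 (fin_count _ X)
  rw [Set.ncard_union_eq h2 hAf (hAf.image _), Set.ncard_image_of_injective _ neg_injective] at h3
  have e : count {D | D ∈ Class ∧ Indecomposable D} X = A.ncard := rfl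
  rw [e]
  refine le_trans (le_of_eq ?_) h3
  ring

end proof

open Pool.Agent.U695.XG in
/-- **Main theorem.** Let `c = ∏_{i ≥ 0} (1 - 2^{-(2i+1)})`; `0.4194 < c < 0.4195`.

1. If `D` is primary, squarefree, with norm `5` modulo `8`, and indecomposable, then the rank part of the
   Birch and Swinnerton-Dyer conjecture holds for `y² = x³ - D² x` over `ℚ(i)` with order of vanishing and
   rank zero, and this curve has exactly four points over `ℚ(i)`.
2. Ordered by norm, exactly the proportion `c` of the primary squarefree `D` with norm `5` modulo `8`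
   is indecomposable.
3. The proportion, among all squarefree Gaussian integers `D` of norm at most `X`, of those with the
   conclusion of 1 is for every `ε > 0` and all large `X` at least `c/6 - ε`; in particular it is at least
   `0.0699` for all large `X`. -/
theorem result : (0.4194 < c ∧ c < 0.4195) ∧
    (∀ D : GaussianInt, D ∈ Class → Indecomposable D → Conclusion D) ∧
    Tendsto (fun X : ℕ => (count {D | D ∈ Class ∧ Indecomposable D} X : ℝ) / (count Class X : ℝ)) atTop
      (nhds c) ∧
    (∀ ε : ℝ, 0 < ε → ∀ᶠ X : ℕ in atTop, c / 6 - ε ≤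
      (count {D | Squarefree D ∧ Conclusion D} X : ℝ) / (count {D | Squarefree D} X : ℝ)) ∧
    ∀ᶠ X : ℕ in atTop, 0.0699 ≤
      (count {D | Squarefree D ∧ Conclusion D} X : ℝ) / (count {D | Squarefree D} X : ℝ) := by
  have hc : c = Pool.Agent.U695.XG.c2 := rfl
  have hb := t_C2.2
  have h3 : Tendsto (fun X : ℕ => 2 * ((((SS {5, 13} X).filter Gd).card : ℝ) /
      ((Dn.Sq X).ncard : ℝ))) atTop (nhds (c / 6)) := by
    have h4 := (Dn.good_share NSf.low5 Dn.share5).const_mul 2
    have e : 2 * (Pool.Agent.U695.XG.c2 * (1 / 12)) = c / 6 := by rw [hc]; ring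
    rw [e] at h4
    exact h4
  have h5 : ∀ ε : ℝ, 0 < ε → ∀ᶠ X : ℕ in atTop, c / 6 - ε ≤
      (count {D | Squarefree D ∧ Conclusion D} X : ℝ) / (count {D | Squarefree D} X : ℝ) := by
    intro ε hε
    filter_upwards [h3.eventually (lt_mem_nhds (show c / 6 - ε < c / 6 by linarith))] with X hX
    refine hX.le.trans ?_
    rw [count_sqf, mul_div_assoc']
    refine div_le_div_of_nonneg_right ?_ (Nat.cast_nonneg _)
    have h6 := twice X
    rw [count_good] at h6
    exact_mod_cast h6
  refine ⟨⟨hc ▸ hb.2.2.1, hc ▸ hb.2.2.2⟩, fun D h1 h2 => conclusion h1 h2, ?_, h5, ?_⟩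
  · rw [hc]
    refine den5.congr fun X => ?_
    rw [count_class, count_good]
  · have h6 : 0.4194 < c := hc ▸ hb.2.2.1
    filter_upwards [h5 (c / 6 - 0.0699) (by linarith)] with X hX
    linarith

end Pool.Agent.Results.MP_1a91b9_nt.ExactShareGaussianTwists
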