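import Pool.Agent.U854.TW.Dlaw

/-!
# The rank part of the Birch and Swinnerton-Dyer conjecture for a positive proportion of the cubic twists
over EVERY field `F = K(∛d₁, …, ∛dₙ)`, with the joint law of all the `3 ^ n` twists

`K` is the field of the third roots of unity and `F = K(∛d₁, …, ∛dₙ)`, where the `dᵢ` are arbitrary
elements of `𝓞 K`, `1` modulo `3`, of norm `1` modulo `9`, independent modulo cubes. (Classically: `F` is
an arbitrary abelian extension of `K` of exponent `3` and degree `3 ^ n` in which the prime above `3` is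
unramified.) `E_D : y² + D y = x³`, and `D` runs through the squarefree `D = 1` modulo `3` of `𝓞 K`, prime
to the `dᵢ`, whose norm is not `1` modulo `9`, ordered by the norm; there are at least `c X` of them. For
`t` in `(ℤ/3)ⁿ` let `D_t = D ∏ dᵢ ^ tᵢ`; the curves `E_{D_t}` are the twists of `E_D` that become
isomorphic to `E_D` over `F`.

* For every such `D`: the Selmer group of `√-3` of `E_{D_t}` over `K` has order `3 ^ (r_t + 1)`, the rank of
  `E_{D_t}(K)` is at most `2 r_t`, and `r_t = 0` if and only if `E_{D_t}(K)` is finite and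
  `Ш(E_{D_t}/K)[3^∞] = 0`. The degree of `F` is `3 ^ n`, the rank of `E_D(F)` is at most `2 ∑ r_t`. If all
  the `r_t` are `0`, then `L(E_D/F, s)` is entire and not zero at `1`, `E_D(F)` is finite, and
  `Ш(E_D/F)[3^∞]` is killed by `3 ^ n`.
* JOINT LAW: for EVERY set `T` of vectors the proportion of the `D` with `(r_t)_t` in `T` tends to the
  measure of `T` for the product of `3 ^ n` copies of the law
  `law r = p / ((3 - 1) (9 - 1) ⋯ (3 ^ r - 1))`, `p = ∏ (1 - 3 ^ {-(2 i + 1)}) = 0.6390…` (the law of the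
  corank of a large symmetric matrix over the field with three elements): the `3 ^ n` twists behave
  independently. In particular the proportion of the `D` for which exactly the twists in a given set `A`
  have finitely many points and trivial `Ш[3^∞]` tends to `p ^ #A (1 - p) ^ (3 ^ n - #A)`.
* So for every fixed `F` the lower density of the `D` for which `L(E_D/F, s)` is entire,
  `L(E_D/F, 1) ≠ 0`, `E_D(F)` is finite (the rank part of the conjecture) and `Ш(E_D/F)[3^∞]` is killed by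
  `[F : K]` is at least `p ^ [F : K]`; and the rank of `E_D(F)` is at most `2 N` with lower density at
  least the probability that the sum of `[F : K]` independent variables with this law is at most `N`.

In the starting file `CubicTowersValues` of this problem the field `F` depends on `D` (its generators are
leaves of the graph of the cubic residue symbols of `D`); here `F` is fixed and arbitrary.

The joint law over `K` is the theorem `law_T` of the starting library (project Q283/T3), which is used here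
for the first time in a hand-in; the descent to the fixed field `K` and the Euler factors are those of
R432 (`CubicTowersValues`), generalised from primes `l` to arbitrary `dᵢ`, and the bound for the rank over `F`
is new.
-/

set_option autoImplicit false

open scoped Classical

namespace Pool.Agent.Results.MP_1a91b9_nt.FixedTowers

open NumberField IsDedekindDomain WeierstrassCurve Filter
open Pool.Agent.TH841.NF.D (Sha)
open Pool.Agent.TH841.SH.D (Coch)

/-- The curve `E_D : y² + D y = x³`. -/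
def curve {F : Type} [Field F] (D : F) : WeierstrassCurve F := ⟨0, 0, D, 0, 0⟩

section field

variable {F : Type} [Field F] [NumberField F]

/-- The number of elements of the residue field at `v`. -/
noncomputable def q (v : HeightOneSpectrum (𝓞 F)) : ℕ := Nat.card (𝓞 F ⧸ v.asIdeal)

/-- The number of points (with the point at infinity) of the curve `y² + D y = x³` over the residue
field at `v`. -/
noncomputable def N (D : 𝓞 F) (v : HeightOneSpectrum (𝓞 F)) : ℕ :=
  Nat.card {P : (𝓞 F ⧸ v.asIdeal) × (𝓞 F ⧸ v.asIdeal) //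
    P.2 ^ 2 + Ideal.Quotient.mk v.asIdeal D * P.2 = P.1 ^ 3} + 1

/-- The Euler factor `(1 - a_v q_v^{-s} + q_v^{1 - 2 s})⁻¹`, `a_v = q_v + 1 - N_v`. -/
noncomputable def factor (D : 𝓞 F) (s : ℂ) (v : HeightOneSpectrum (𝓞 F)) : ℂ :=
  (1 - ((q v : ℂ) + 1 - N D v) * (q v : ℂ) ^ (-s) + (q v : ℂ) ^ (1 - 2 * s))⁻¹

/-- The rank of `E_D(F)`. -/
noncomputable def rank (D : F) : ℕ := Module.finrank ℤ (curve D).toAffine.Point

/-- For the curve `E_D : y² + D y = x³` over `F`: the Euler product over the places `v` of `F` that do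
not divide `B` converges for `Re s > 3/2`, it extends to an entire function, the value of this
function at `s = 1` is not zero, `E_D(F)` is finite, and `m` kills the `3`-primary part of
`Ш(E_D / F)`. -/
def RankZero (B D : 𝓞 F) (m : ℕ) : Prop :=
  (∃ L : ℂ → ℂ, Differentiable ℂ L ∧
    (∀ s : ℂ, 3 / 2 < s.re →
      HasProd (fun v : {v : HeightOneSpectrum (𝓞 F) // B ∉ v.asIdeal} => factor D s v.1) (L s)) ∧
    L 1 ≠ 0) ∧
  Finite (curve (D : F)).toAffine.Point ∧
  ∀ (k : ℕ) (y : Sha (curve (D : F))), 3 ^ k • y = 0 → m • y = 0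

/-- The Selmer group of the endomorphism `√-3` of `E_D` over `F`, if `F` contains the third roots of
unity: the continuous cocycles with values in its kernel `{0, (0, 0), (0, -D)}` that are coboundaries in
`E_D` at all the places of `F`. -/
def Sel (D : F) : Set (Coch (curve D)) :=
  {f | Pool.Agent.TH841.NF.D.IsShaCoc (curve D) f ∧ ∀ σ, f σ = 0 ∨ ∃ y h, f σ = Affine.Point.some 0 y h}

end field

variable {K : Type} [Field K] [NumberField K]

/-- `d₁, …, dₙ` are `1` modulo `3`, their norms are `1` modulo `9`, and they are independent modulo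
cubes. -/
structure Family {n : ℕ} (d : Fin n → 𝓞 K) : Prop where
  three : ∀ i, (3 : 𝓞 K) ∣ d i - 1
  nine : ∀ i, (9 : ℤ) ∣ Algebra.norm ℤ (d i) - 1
  ind : ∀ a : Fin n → ℕ, (∃ x : 𝓞 K, x ^ 3 = ∏ i, d i ^ a i) → ∀ i, 3 ∣ a i

/-- `F = K(∛d₁, …, ∛dₙ)`. -/
def Generated {n : ℕ} (d : Fin n → 𝓞 K) (F : Type) [Field F] [Algebra K F] : Prop :=
  ∃ r : Fin n → F, (∀ i, r i ^ 3 = algebraMap K F (d i : K)) ∧
    ∀ L : Subfield F, (∀ k : K, algebraMap K F k ∈ L) → (∀ i, r i ∈ L) → L = ⊤

/-- `D` is squarefree and `1` modulo `3`, its norm is not `1` modulo `9`, and it is prime to the `dᵢ`. -/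
def InClass {n : ℕ} (d : Fin n → 𝓞 K) (D : 𝓞 K) : Prop :=
  ((3 : 𝓞 K) ∣ D - 1 ∧ Squarefree D ∧ ¬ (9 : ℤ) ∣ Algebra.norm ℤ D - 1) ∧
    ∀ π : 𝓞 K, Prime π → π ∣ D → ¬ π ∣ ∏ i, d i

/-- `D_t = D ∏ dᵢ ^ tᵢ`, `t` in `(ℤ/3)ⁿ` (the exponents are taken in `{0, 1, 2}`). -/
noncomputable def twist {n : ℕ} (d : Fin n → 𝓞 K) (D : 𝓞 K) (t : Fin n → ZMod 3) : 𝓞 K :=
  D * ∏ i, d i ^ (t i).val

/-- `E_D(K)` is finite and `Ш(E_D / K)[3^∞] = 0`. -/
def Good (D : 𝓞 K) : Prop :=
  Finite (curve (D : K)).toAffine.Point ∧ ∀ (k : ℕ) (y : Sha (curve (D : K))), 3 ^ k • y = 0 → y = 0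

/-- the `D` in the class of norm at most `X` with the property `P` -/
def upTo {n : ℕ} (d : Fin n → 𝓞 K) (X : ℕ) (P : 𝓞 K → Prop) : Set (𝓞 K) :=
  {D | (Algebra.norm ℤ D ≤ X ∧ InClass d D) ∧ P D}

/-- the proportion of the `D` of norm at most `X` in the class with the property `P` -/
noncomputable def proportion {n : ℕ} (d : Fin n → 𝓞 K) (P : 𝓞 K → Prop) (X : ℕ) : ℝ :=
  ((upTo d X P).ncard : ℝ) / ((upTo d X fun _ => True).ncard : ℝ)

/-- `p = ∏_{i ≥ 0} (1 - 3^{-(2 i + 1)})` -/
noncomputable def p : ℝ := ∏' i : ℕ, (1 - (1 / 3 : ℝ) ^ (2 * i + 1))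

/-- the law of the coranks of large symmetric matrices over the field with three elements -/
noncomputable def law (r : ℕ) : ℝ := p / ∏ i ∈ Finset.range r, ((3 : ℝ) ^ (i + 1) - 1)

/-- the Selmer groups of the twists `D_t` have the orders `3 ^ (r t + 1)` -/
def Coranks {n : ℕ} (d : Fin n → 𝓞 K) (D : 𝓞 K) (r : (Fin n → ZMod 3) → ℕ) : Prop :=
  ∀ t, (Sel (twist d D t : K)).ncard = 3 ^ (r t + 1)

/-! ### The proof -/

open Pool.Agent.U854.TW (perF law_tw law_triv lower)
open Q283.T3B (NC low_K fin_K)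
open Pool.Agent.Y696.CTK (ClsK)

omit [NumberField K] in
theorem fam {n : ℕ} {d : Fin n → 𝓞 K} (hd : Family d) : Pool.Agent.U854.TW.Family d :=
  ⟨hd.three, hd.nine, hd.ind⟩

theorem law_eq (r : ℕ) : Pool.Agent.Y703.XL.cr r = law r := rfl

/-- There is a field generated by the cube roots. -/
theorem exists_generated {n : ℕ} (d : Fin n → 𝓞 K) :
    ∃ (F : Type) (_ : Field F) (_ : NumberField F) (_ : Algebra K F), Generated d F := by
  let p : Polynomial K := ∏ i, (Polynomial.X ^ 3 - Polynomial.C (d i : K))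
  let F : Type := p.SplittingField
  have : NumberField F := NumberField.of_module_finite K F
  have hp0 : p ≠ 0 := Finset.prod_ne_zero_iff.2 fun i _ =>
    Polynomial.X_pow_sub_C_ne_zero (by norm_num) _
  have hsp : (p.map (algebraMap K F)).Splits := Polynomial.SplittingField.splits p
  have hp0' : p.map (algebraMap K F) ≠ 0 :=
    (Polynomial.map_ne_zero_iff (algebraMap K F).injective).2 hp0
  have hroot : ∀ i, ∃ x : F, x ^ 3 = algebraMap K F (d i : K) := by
    intro i
    have h1 : ((Polynomial.X ^ 3 - Polynomial.C (d i : K)).map (algebraMap K F)).Splits :=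
      hsp.of_dvd hp0' (Polynomial.map_dvd _ (Finset.dvd_prod_of_mem _ (Finset.mem_univ i)))
    obtain ⟨x, hx⟩ := h1.exists_eval_eq_zero (by
      rw [Polynomial.degree_map, Polynomial.degree_X_pow_sub_C (by norm_num)]
      norm_num)
    refine ⟨x, ?_⟩
    simp at hx
    linear_combination hx
  choose r hr using hroot
  let M : IntermediateField K F := IntermediateField.adjoin K (Set.range r)
  have hMn : NumberField M := NumberField.of_module_finite K M
  have hrM : ∀ i, r i ∈ M := fun i => IntermediateField.subset_adjoin K _ ⟨i, rfl⟩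
  refine ⟨M, inferInstance, hMn, inferInstance, fun i => ⟨r i, hrM i⟩,
    fun i => ?_, fun L hL1 hL2 => ?_⟩
  · apply Subtype.ext
    exact hr i
  · rw [eq_top_iff]
    intro y _
    let L' : IntermediateField K F :=
      { (L.map (algebraMap M F)) with
        algebraMap_mem' := fun k => ⟨algebraMap K M k, hL1 k, rfl⟩ }
    have h1 : M ≤ L' := by
      apply IntermediateField.adjoin_le_iff.2
      rintro _ ⟨i, rfl⟩
      exact ⟨_, hL2 i, rfl⟩
    obtain ⟨y', hy', h2⟩ := h1 y.2
    have h3 : y' = y := Subtype.ext h2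
    rw [← h3]
    exact hy'

theorem ef_eq {F : Type} [Field F] [NumberField F] (c : 𝓞 F) (s : ℂ) (v : HeightOneSpectrum (𝓞 F)) :
    Pool.Agent.R432.V.ef c s v = factor c s v := by
  unfold factor Pool.Agent.R432.V.ef q N Pool.Agent.R432.V.qv Pool.Agent.R432.V.cn
  rw [Nat.cast_add, Nat.cast_one, add_sub_add_right_eq_sub]

/-- one `D` -/
theorem one (K : Type) [Field K] [NumberField K] [IsCyclotomicExtension {3} ℚ K] {n : ℕ}
    {d : Fin n → 𝓞 K} (hd : Family d) {D : 𝓞 K} (hD : ClsK D) :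
    ∃ r : (Fin n → ZMod 3) → ℕ, Coranks d D r ∧
      (∀ t, rank (twist d D t : K) ≤ 2 * r t ∧ (r t = 0 ↔ Good (twist d D t))) ∧
      ∀ (F : Type) [Field F] [NumberField F] [Algebra K F], Generated d F →
        Module.finrank K F = 3 ^ n ∧ rank (algebraMap K F D) ≤ 2 * ∑ t, r t ∧
        ((∀ t, r t = 0) → RankZero (algebraMap (𝓞 K) (𝓞 F) (3 * D * ∏ i, d i))
          (algebraMap (𝓞 K) (𝓞 F) D) (3 ^ n)) := by
  obtain ⟨r, h1, h2⟩ := perF K (fam hd) hD
  refine ⟨r, fun t => (h1 t).1, fun t => ⟨(h1 t).2.1, (h1 t).2.2⟩, fun F _ _ _ hF => ?_⟩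
  obtain ⟨x, hx, hgen⟩ := hF
  obtain ⟨h3, h4, h5⟩ := h2 F x hx hgen
  refine ⟨h3, h4, fun h0 => ?_⟩
  obtain ⟨⟨L, h6, h7, h8⟩, h9, h10⟩ := h5 h0
  refine ⟨⟨L, h6, fun s hs => ?_, h7⟩, h9, h10⟩
  refine (h8 s hs).congr_fun fun v => ?_
  exact (ef_eq _ _ _).symm

theorem coranks_unique {n : ℕ} {d : Fin n → 𝓞 K} {D : 𝓞 K} {r r' : (Fin n → ZMod 3) → ℕ}
    (h : Coranks d D r) (h' : Coranks d D r') : r = r' := by
  funext t
  have h1 := (h t).symm.trans (h' t)
  have h2 := Nat.pow_right_injective (le_refl 2 |>.trans (by norm_num : 2 ≤ 3)) h1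
  omega

/-- **Main theorem.** -/
theorem result (K : Type) [Field K] [NumberField K] [IsCyclotomicExtension {3} ℚ K] (n : ℕ)
    (d : Fin n → 𝓞 K) (hd : Family d) :
    -- the field exists, and the class has positive density
    (∃ (F : Type) (_ : Field F) (_ : NumberField F) (_ : Algebra K F), Generated d F) ∧
    (∃ c : ℝ, 0 < c ∧ ∃ X₀ : ℕ, ∀ X : ℕ, X₀ ≤ X → c * X ≤ ((upTo d X fun _ => True).ncard : ℝ)) ∧
    -- each `D`
    (∀ D : 𝓞 K, InClass d D → ∃! r : (Fin n → ZMod 3) → ℕ, Coranks d D r ∧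
      (∀ t, rank (twist d D t : K) ≤ 2 * r t ∧ (r t = 0 ↔ Good (twist d D t))) ∧
      ∀ (F : Type) [Field F] [NumberField F] [Algebra K F], Generated d F →
        Module.finrank K F = 3 ^ n ∧ rank (algebraMap K F D) ≤ 2 * ∑ t, r t ∧
        ((∀ t, r t = 0) → RankZero (algebraMap (𝓞 K) (𝓞 F) (3 * D * ∏ i, d i))
          (algebraMap (𝓞 K) (𝓞 F) D) (3 ^ n))) ∧
    -- the joint law of the twists
    (∀ T : Set ((Fin n → ZMod 3) → ℕ),
      Tendsto (proportion d fun D => ∃ r ∈ T, Coranks d D r) atTop (nhds (∑' r : T, ∏ t, law (r.1 t)))) ∧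
    (∀ A : Finset (Fin n → ZMod 3),
      Tendsto (proportion d fun D => ∀ t, (Good (twist d D t) ↔ t ∈ A)) atTop
        (nhds (p ^ A.card * (1 - p) ^ (3 ^ n - A.card)))) ∧
    -- the curves over `F`
    (∀ (F : Type) [Field F] [NumberField F] [Algebra K F], Generated d F → ∀ ε : ℝ, 0 < ε →
      (∀ᶠ X : ℕ in atTop, p ^ (3 ^ n) - ε ≤ proportion d (fun D =>
        RankZero (algebraMap (𝓞 K) (𝓞 F) (3 * D * ∏ i, d i)) (algebraMap (𝓞 K) (𝓞 F) D) (3 ^ n)) X) ∧
      ∀ m : ℕ, ∀ᶠ X : ℕ in atTop,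
        (∑' r : {r : (Fin n → ZMod 3) → ℕ | ∑ t, r t ≤ m}, ∏ t, law (r.1 t)) - ε ≤
          proportion d (fun D => rank (algebraMap K F D) ≤ 2 * m) X) ∧
    -- the law
    (HasSum law 1 ∧ law 0 = p ∧ 0.639 < p ∧ p < 0.6391) := by
  have hC9 := Pool.Agent.Y703.XL.t_C9
  have hset : ∀ (X : ℕ) (P : 𝓞 K → Prop), upTo d X P =
      {D | D ∈ {D : 𝓞 K | Algebra.norm ℤ D ≤ X ∧ ClsK D ∧ NC D (∏ i, d i)} ∧ P D} := by
    intro X P
    ext D
    show ((_ ∧ (_ ∧ _)) ∧ P D) ↔ ((_ ∧ _ ∧ _) ∧ P D)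
    exact Iff.rfl
  have hset0 : ∀ X : ℕ, (upTo d X fun _ => True) =
      {D : 𝓞 K | Algebra.norm ℤ D ≤ X ∧ ClsK D ∧ NC D (∏ i, d i)} := by
    intro X
    rw [hset]
    ext D
    simp
  have hfin : ∀ X : ℕ, {D : 𝓞 K | Algebra.norm ℤ D ≤ X ∧ ClsK D ∧ NC D (∏ i, d i)}.Finite :=
    fun X => fin_K K (∏ i, d i) (Pool.Agent.U854.TW.prodd_ne (fam hd)) X
  have hset2 : ∀ (X : ℕ) (P : 𝓞 K → Prop), upTo d X P =
      {D : 𝓞 K | Algebra.norm ℤ D ≤ X ∧ ClsK D ∧ NC D (∏ i, d i) ∧ P D} := by
    intro X P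
    rw [hset]
    ext D
    simp only [Set.mem_ofPred_eq]
    tauto
  have hlaw : ∀ T : Set ((Fin n → ZMod 3) → ℕ),
      Tendsto (proportion d fun D => ∃ r ∈ T, Coranks d D r) atTop
        (nhds (∑' r : T, ∏ t, law (r.1 t))) := by
    intro T
    refine (law_tw K (fam hd) T).congr fun X => ?_
    unfold proportion
    rw [hset2, hset0]
    rfl
  have hlow : ∀ (T : Set ((Fin n → ZMod 3) → ℕ)) (Q : 𝓞 K → Prop),
      (∀ D, InClass d D → (∃ r ∈ T, Coranks d D r) → Q D) → ∀ ε : ℝ, 0 < ε →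
      ∀ᶠ X : ℕ in atTop, (∑' r : T, ∏ t, law (r.1 t)) - ε ≤ proportion d Q X := by
    intro T Q hQ ε hε
    have h1 := hlaw T
    have h2 : Tendsto (fun X : ℕ => ({D | D ∈ {D : 𝓞 K | Algebra.norm ℤ D ≤ X ∧ ClsK D ∧
        NC D (∏ i, d i)} ∧ ∃ r ∈ T, Coranks d D r}.ncard : ℝ) /
        ({D : 𝓞 K | Algebra.norm ℤ D ≤ X ∧ ClsK D ∧ NC D (∏ i, d i)}.ncard : ℝ)) atTop
        (nhds (∑' r : T, ∏ t, law (r.1 t))) := by
      refine h1.congr fun X => ?_
      unfold proportion
      rw [hset, hset0]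
    filter_upwards [lower hfin h2 (q := Q) (fun X D hD hp => hQ D ⟨hD.2.1, hD.2.2⟩ hp) hε] with X hX
    unfold proportion
    rw [hset, hset0]
    exact hX
  refine ⟨exists_generated d, ?_, ?_, hlaw, ?_, ?_, ?_⟩
  · obtain ⟨c, hc, X₀, h⟩ := low_K K (∏ i, d i) (Pool.Agent.U854.TW.prodd_ne (fam hd))
    refine ⟨c, hc, X₀, fun X hX => ?_⟩
    rw [hset0]
    exact h X hX
  · intro D hD
    obtain ⟨r, h1, h2, h3⟩ := one K hd hD.1
    exact ⟨r, ⟨h1, h2, h3⟩, fun r' hr' => coranks_unique hr'.1 h1⟩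
  · intro A
    have h1 := law_triv K (fam hd) A
    have hl0 : Pool.Agent.Y703.XL.cr 0 = p := by
      rw [law_eq]
      unfold law
      rw [Finset.prod_range_zero, div_one]
    rw [hl0] at h1
    refine h1.congr fun X => ?_
    unfold proportion
    rw [hset2, hset0]
    rfl
  · intro F _ _ _ hF ε hε
    refine ⟨?_, fun m => ?_⟩
    · have h0 : ∑' r : ({0} : Set ((Fin n → ZMod 3) → ℕ)), ∏ t, law (r.1 t) = p ^ (3 ^ n) := by
        rw [tsum_singleton (0 : (Fin n → ZMod 3) → ℕ) fun r => ∏ t, law (r t)]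
        have hl0 : law 0 = p := by
          unfold law
          rw [Finset.prod_range_zero, div_one]
        simp only [Pi.zero_apply, hl0, Finset.prod_const, Finset.card_univ, Fintype.card_fun, ZMod.card,
          Fintype.card_fin]
      have h1 := hlow {0} (fun D =>
        RankZero (algebraMap (𝓞 K) (𝓞 F) (3 * D * ∏ i, d i)) (algebraMap (𝓞 K) (𝓞 F) D) (3 ^ n))
        (fun D hD hr => by
          obtain ⟨r, hr0, hr⟩ := hr
          obtain ⟨r', h1, h2, h3⟩ := one K hd hD.1
          have h4 := coranks_unique hr h1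
          rw [Set.mem_singleton_iff] at hr0
          exact (h3 F hF).2.2 fun t => by rw [← h4, hr0]; rfl) ε hε
      rw [h0] at h1
      exact h1
    · exact hlow {r | ∑ t, r t ≤ m} (fun D => rank (algebraMap K F D) ≤ 2 * m)
        (fun D hD hr => by
          obtain ⟨r, hr0, hr⟩ := hr
          obtain ⟨r', h1, h2, h3⟩ := one K hd hD.1
          have h4 := coranks_unique hr h1
          subst h4
          exact (h3 F hF).2.1.trans (Nat.mul_le_mul_left 2 hr0)) ε hε
  · have hl0 : law 0 = p := by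
      unfold law
      rw [Finset.prod_range_zero, div_one]
    exact ⟨Pool.Agent.Y703.XL.t_SUM', hl0, hC9.2.2.2.1, hC9.2.2.2.2⟩

end Pool.Agent.Results.MP_1a91b9_nt.FixedTowers
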